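import Pool.Agent.Lib.MP_305fdd_al.Fr.X.Core
import Pool.Agent.Lib.MP_305fdd_al.Fr.R.SSmall2

/-!
# MP_305fdd_al, F_r, INPUT-R: preparation of Theorem R for a vertex group

`Γ` is a finitely generated non-commutative group with a representation `ρ` over a field `F` of
characteristic two, with traces `T` in the subfield `K` generated by them, such that no nontrivial
element has trace zero.  `x` is a semi-good real valuation of `K`.
-/

set_option autoImplicit false
set_option linter.unusedSectionVars false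

namespace Pool.Agent.FrV

open Pool.Agent.FrN Pool.Agent.F2Ch Matrix

variable {Γ K F : Type} [Group Γ] [Field K] [Field F] [Algebra (ZMod 2) K]
  [Algebra (ZMod 2) F] [Algebra K F]

/-- Data of a vertex group. -/
structure VG (Γ K F : Type) [Group Γ] [Field K] [Field F] [Algebra (ZMod 2) K]
    [Algebra (ZMod 2) F] [Algebra K F] (T : Γ → K)
    (ρ : Γ →* SpecialLinearGroup (Fin 2) F) : Prop where
  fg : Group.FG Γ
  tr : ∀ g, (ρ g).1.trace = algebraMap K F (T g)
  frac : Frc (BB 2 T)
  div : ∀ g, T g = 0 → g = 1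
  nc : ∃ a b : Γ, a * b ≠ b * a

/-- semi-good real valuations -/
structure SGV {Γ K : Type} [Field K] [Algebra (ZMod 2) K] (T : Γ → K) (x : K → ℝ) : Prop where
  isV : IsV x
  le : ∀ b ∈ BB 2 T, b ≠ 0 → x b ≤ 0
  ne : ∃ a, x a ≠ 0

theorem two_eq_zero (K : Type) [Field K] [Algebra (ZMod 2) K] : (2 : K) = 0 := by
  have h : algebraMap (ZMod 2) K 2 = 0 := by
    rw [show (2 : ZMod 2) = 0 from rfl, map_zero]
  rwa [map_ofNat] at h

theorem add_self_zero {K : Type} [Field K] [Algebra (ZMod 2) K] (a : K) : a + a = 0 := by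
  rw [← two_mul, two_eq_zero, zero_mul]

theorem neg_eq {K : Type} [Field K] [Algebra (ZMod 2) K] (a : K) : -a = a := by
  rw [neg_eq_iff_add_eq_zero, add_self_zero]

theorem sub_eq {K : Type} [Field K] [Algebra (ZMod 2) K] (a b : K) : a - b = a + b := by
  rw [sub_eq_add_neg, neg_eq]

variable {T : Γ → K} {ρ : Γ →* SpecialLinearGroup (Fin 2) F}

theorem VG.tr' (h : VG Γ K F T ρ) (g : Γ) : FrR.tr (ρ g) = algebraMap K F (T g) := by
  rw [← h.tr, Matrix.trace_fin_two]
  rfl

theorem VG.T_one (h : VG Γ K F T ρ) : T 1 = 0 := by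
  apply (algebraMap K F).injective
  rw [← h.tr', map_one, map_zero]
  show (1 : F) + 1 = 0
  exact add_self_zero 1

theorem VG.inj (h : VG Γ K F T ρ) : Function.Injective ρ := by
  rw [injective_iff_map_eq_one]
  intro g hg
  apply h.div
  apply (algebraMap K F).injective
  rw [← h.tr', hg, map_zero]
  show (1 : F) + 1 = 0
  exact add_self_zero 1

theorem VG.T_ne (h : VG Γ K F T ρ) {g : Γ} (hg : g ≠ 1) : T g ≠ 0 := fun h0 => hg (h.div g h0)


theorem T_mem (T : Γ → K) (g : Γ) : T g ∈ BB 2 T := Algebra.subset_adjoin ⟨g, rfl⟩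

/-- the ring of the elements of nonnegative value, as a subalgebra -/
theorem nonneg_adjoin {k K : Type} [Field k] [Field K] [Algebra k K] {x : K → ℝ} (hx : IsV x)
    (ht : Triv k x) (S : Set K) (hS : ∀ s ∈ S, s = 0 ∨ 0 ≤ x s) :
    ∀ b ∈ Algebra.adjoin k S, b = 0 ∨ 0 ≤ x b := by
  intro b hb
  have h1 : x 1 = 0 := by
    have := hx.mul 1 1 one_ne_zero one_ne_zero
    rw [one_mul] at this
    linarith
  induction hb using Algebra.adjoin_induction with
  | mem b hb => exact hS b hb
  | algebraMap r =>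
    right
    rw [ht r]
  | add a b _ _ ha hb =>
    by_cases h0 : a = 0
    · rw [h0, zero_add]; exact hb
    by_cases h0' : b = 0
    · rw [h0', add_zero]; exact ha
    by_cases h2 : a + b = 0
    · left; exact h2
    right
    exact le_trans (le_min (ha.resolve_left h0) (hb.resolve_left h0')) (hx.add a b h0 h0' h2)
  | mul a b _ _ ha hb =>
    by_cases h0 : a = 0
    · left; rw [h0, zero_mul]
    by_cases h0' : b = 0
    · left; rw [h0', mul_zero]
    right
    rw [hx.mul a b h0 h0']
    have := ha.resolve_left h0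
    have := hb.resolve_left h0'
    linarith

theorem triv_two {K : Type} [Field K] [Algebra (ZMod 2) K] {x : K → ℝ} (hx : IsV x) :
    Triv (ZMod 2) x := by
  intro c
  have h1 : x 1 = 0 := by
    have := hx.mul 1 1 one_ne_zero one_ne_zero
    rw [one_mul] at this
    linarith
  fin_cases c
  · show x (algebraMap (ZMod 2) K 0) = 0
    rw [map_zero, hx.zero]
  · show x (algebraMap (ZMod 2) K 1) = 0
    rw [map_one, h1]

/-- If `x` is nonnegative and nonpositive on a ring then it is trivial on the fractions. -/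
theorem zero_of_frac {K : Type} [Field K] {x : K → ℝ} (hx : IsV x) {a b c : K} (hb : b ≠ 0)
    (h : c * b = a) (ha : x a = 0) (hb' : x b = 0) : x c = 0 := by
  by_cases hc : c = 0
  · rw [hc, hx.zero]
  have := hx.mul c b hc hb
  rw [h, ha, hb'] at this
  linarith

/-- (1) some trace has a negative value -/
theorem VG.exists_neg (h : VG Γ K F T ρ) {x : K → ℝ} (hx : SGV T x) : ∃ g, x (T g) < 0 := by
  by_contra hcon
  push Not at hcon
  have h1 : ∀ b ∈ BB 2 T, x b = 0 := by
    intro b hb
    by_cases hb0 : b = 0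
    · rw [hb0, hx.isV.zero]
    have h2 := nonneg_adjoin hx.isV (triv_two hx.isV) (Set.range T) (by
      rintro _ ⟨g, rfl⟩
      exact Or.inr (hcon g)) b hb
    exact le_antisymm (hx.le b hb hb0) (h2.resolve_left hb0)
  obtain ⟨a, ha⟩ := hx.ne
  obtain ⟨c, hc, d, hd, hd0, hcd⟩ := h.frac a
  exact ha (zero_of_frac hx.isV hd0 hcd (h1 c hc) (h1 d hd))

/-- A semi-good valuation which is nonnegative on a set of traces is trivial on the field generated
by this set. -/
theorem SGV.triv {T : Γ → K} {x : K → ℝ} (hx : SGV T x) {S : Set K} (hS : ∀ s ∈ S, s ∈ BB 2 T)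
    (h0 : ∀ s ∈ S, s = 0 ∨ 0 ≤ x s) : ∀ c ∈ IntermediateField.adjoin (ZMod 2) S, x c = 0 := by
  have h1 : ∀ b ∈ Algebra.adjoin (ZMod 2) S, x b = 0 := by
    intro b hb
    by_cases hb0 : b = 0
    · rw [hb0, hx.isV.zero]
    have h2 := nonneg_adjoin hx.isV (triv_two hx.isV) S h0 b hb
    have h3 : b ∈ BB 2 T := (Algebra.adjoin_le hS : Algebra.adjoin (ZMod 2) S ≤ BB 2 T) hb
    exact le_antisymm (hx.le b h3 hb0) (h2.resolve_left hb0)
  intro c hc
  obtain ⟨a, ha, b, hb, rfl⟩ := IntermediateField.mem_adjoin_iff_div.mp hc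
  by_cases hb0 : b = 0
  · rw [hb0, div_zero, hx.isV.zero]
  exact zero_of_frac hx.isV hb0 (div_mul_cancel₀ a hb0) (h1 a ha) (h1 b hb)

end Pool.Agent.FrV
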