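import Pool.Agent.Lib.MP_305fdd_al.Fr.S.Defs

/-!
# MP_305fdd_al, F_r: Theorem R for a subgroup `P` of `Γ` (vertex group), in the language of `Γ`

Section 9 of /team-store/MP_305fdd_SP_h70.md.
-/

set_option autoImplicit false

namespace Pool.Agent.FrV

open Pool.Agent.FrN Pool.Agent.F2Ch Pool.Agent.FrS Matrix

/-- `D` is commutative -/
def Cm {Γ : Type} [Group Γ] (D : Subgroup Γ) : Prop := ∀ a ∈ D, ∀ b ∈ D, a * b = b * a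

/-- `P` splits relative to the subgroups `I i`; `b` is not algebraic over the traces of the `I i`. -/
def Out {Γ F ι : Type} [Group Γ] [Field F] [Algebra (ZMod 2) F]
    (ρ : Γ →* SpecialLinearGroup (Fin 2) F) (P : Subgroup Γ) (I : ι → Subgroup Γ) : Prop :=
  (∃ A A' D : Subgroup Γ, IsAm P A A' D ∧ A.FG ∧ A'.FG ∧ D.FG ∧ Cm D ∧ A ≠ D ∧ A' ≠ D ∧
    (∀ i, ∃ g ∈ P, (∀ c ∈ I i, g⁻¹ * c * g ∈ A) ∨ (∀ c ∈ I i, g⁻¹ * c * g ∈ A')) ∧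
    (D ≠ ⊥ → Cm A → ∃ b ∈ A,
      ¬ IsAlgebraic (Algebra.adjoin (ZMod 2) (trs ρ {c | ∃ i, c ∈ I i})) (tr ρ b)) ∧
    (D ≠ ⊥ → Cm A' → ∃ b ∈ A',
      ¬ IsAlgebraic (Algebra.adjoin (ZMod 2) (trs ρ {c | ∃ i, c ∈ I i})) (tr ρ b))) ∨
  (∃ (A D : Subgroup Γ) (s : Γ), IsHn P A D s ∧ A.FG ∧ D.FG ∧ Cm D ∧
    ∀ i, ∃ g ∈ P, ∀ c ∈ I i, g⁻¹ * c * g ∈ A)

/-- THEOREM R FOR A VERTEX GROUP. -/
def S_V : Prop :=
  ∀ (Γ K F ι : Type) [Group Γ] [Field K] [Field F] [Algebra (ZMod 2) K] [Algebra (ZMod 2) F]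
    [Algebra K F] [Finite ι] (T : Γ → K) (ρ : Γ →* SpecialLinearGroup (Fin 2) F)
    (P : Subgroup Γ) (I : ι → Subgroup Γ) (x : K → ℝ),
    (∀ g ∈ P, (ρ g).1.trace = algebraMap K F (T g)) → (∀ g ∈ P, T g = 0 → g = 1) →
    P.FG → ¬ Cm P → (∀ i, I i ≤ P) → (∀ i, (I i).FG) → (∀ i, Cm (I i)) →
    IsV x → (∀ b ∈ Algebra.adjoin (ZMod 2) (T '' P), b ≠ 0 → x b ≤ 0) →
    (∃ b ∈ Algebra.adjoin (ZMod 2) (T '' P), x b ≠ 0) → (∀ i, ∀ c ∈ I i, 0 ≤ x (T c)) →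
    Out ρ P I

end Pool.Agent.FrV
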