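import Pool.Agent.Lib.MP_305fdd_al.Fr.V.Main
import Pool.Agent.Lib.MP_305fdd_al.Fr.R.Main
import Pool.Agent.Lib.MP_305fdd_al.Fr.R.P_fgA

/-!
# MP_305fdd_al, F_r: Theorem R for vertex groups, unconditional
-/

set_option autoImplicit false

namespace Pool.Agent.FrV

/-- THEOREM R FOR VERTEX GROUPS. -/
theorem p_V : S_V := s_v FrR.p_R FrR.p_fgA FrR.p_fgH

end Pool.Agent.FrV
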