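import Pool.Agent.Lib.MP_305fdd_al.Fr.T.BSH
import Pool.Agent.Lib.MP_305fdd_al.Fr.S.Defs
import Pool.Agent.Lib.MP_305fdd_al.Fr.R.Stm2

/-!
# MP_305fdd_al, F_r: from an action on a tree to `IsAm` / `IsHn`
-/

set_option autoImplicit false
set_option linter.unusedSectionVars false

namespace Pool.Agent.FrV

open Pool.Agent.FrS Pool.Agent.FrT Matrix Monoid

variable {G Γ : Type} [Group G] [Group Γ]

/-- all representations of `G` factor through `j` -/
def Fac (j : G →* Γ) : Prop :=
  ∀ (R : Type) [CommRing R] [Algebra (ZMod 2) R] (r : G →* SpecialLinearGroup (Fin 2) R),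
    j.ker ≤ r.ker

/-- the induced map on the image -/
theorem Fac.desc {j : G →* Γ} (hj : Fac j) {R : Type} [CommRing R] [Algebra (ZMod 2) R]
    (r : G →* SpecialLinearGroup (Fin 2) R) :
    ∃ q : Γ → SpecialLinearGroup (Fin 2) R, MulOn j.range q ∧ ∀ g, q (j g) = r g := by
  classical
  let q : Γ → SpecialLinearGroup (Fin 2) R := fun γ => if h : ∃ g, j g = γ then r h.choose else 1
  have hq : ∀ g, q (j g) = r g := by
    intro g
    have hex : ∃ g', j g' = j g := ⟨g, rfl⟩
    simp only [q]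
    rw [dif_pos hex]
    have h1 : hex.choose * g⁻¹ ∈ j.ker := by
      rw [MonoidHom.mem_ker, map_mul, map_inv, hex.choose_spec, mul_inv_cancel]
    have h2 : r (hex.choose * g⁻¹) = 1 := hj R r h1
    rw [map_mul, map_inv, mul_inv_eq_one] at h2
    exact h2
  refine ⟨q, ?_, hq⟩
  rintro _ ⟨a, rfl⟩ _ ⟨b, rfl⟩
  rw [← map_mul, hq, hq, hq, map_mul]

/-- the restriction of a map which is multiplicative on the image of `H` -/
theorem exists_pull (j : G →* Γ) {H : Subgroup G} {Q : Type} [Group Q] {r : Γ → Q}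
    (hr : MulOn (H.map j) r) : ∃ r' : H →* Q, ∀ a : H, r' a = r (j a) := by
  refine ⟨⟨⟨fun a => r (j a), ?_⟩, ?_⟩, fun _ => rfl⟩
  · have h := hr (j ((1 : H) : G)) ⟨_, (1 : H).2, rfl⟩ (j ((1 : H) : G)) ⟨_, (1 : H).2, rfl⟩
    rw [← map_mul, ← Subgroup.coe_mul, one_mul] at h
    exact left_eq_mul.1 h
  · intro a b
    show r (j ((a * b : H) : G)) = r (j a) * r (j b)
    rw [Subgroup.coe_mul, map_mul]
    exact hr _ ⟨_, a.2, rfl⟩ _ ⟨_, b.2, rfl⟩

section

variable {V : Type} [MulAction G V] {X : SimpleGraph V}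
  (hact : ∀ (g : G) (x y : V), X.Adj x y → X.Adj (g • x) (g • y)) {u v : V}

/-- AMALGAM -/
theorem isAm (j : G →* Γ) (hj : Fac j) (hX : X.IsTree)
    (hinv : ∀ g : G, ¬ (g • u = v ∧ g • v = u)) (huv : X.Adj u v)
    (hno : ∀ g : G, ¬ Rch G X u v (g • u) v) :
    IsAm j.range ((Sst (u := u) (v := v) hact u).map j) ((Sst (u := u) (v := v) hact v).map j)
      ((SC G u v).map j) := by
  let S : Fin 2 → Subgroup G := fun i => if i = 0 then Sst (u := u) (v := v) hact u else
    Sst (u := u) (v := v) hact v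
  have hS0 : S 0 = Sst (u := u) (v := v) hact u := rfl
  have hS1 : S 1 = Sst (u := u) (v := v) hact v := rfl
  have hC : ∀ i, SC G u v ≤ S i := by
    intro i
    fin_cases i
    · exact SC_le_u hact
    · exact SC_le_v hact
  have hbij := amalg hact hX hinv huv hno S hS0 hS1 hC
  set φ : ∀ i, SC G u v →* S i := fun i => Subgroup.inclusion (hC i) with hφ
  set nat : PushoutI φ →* G := PushoutI.lift (φ := φ)
      (fun i => (S i).subtype) (SC G u v).subtype (fun i => by ext x; rfl) with hnat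
  have hnat_of : ∀ i (a : S i), nat (PushoutI.of i a) = a := by
    intro i a
    rw [hnat, PushoutI.lift_of]
    rfl
  have hbij' : Function.Bijective nat := hbij
  let Φ : PushoutI φ ≃* G := MulEquiv.ofBijective nat hbij'
  have hΦ : ∀ i (a : S i), Φ.symm (a : G) = PushoutI.of i a := by
    intro i a
    rw [MulEquiv.symm_apply_eq]
    exact (hnat_of i a).symm
  refine ⟨?_, Subgroup.map_mono (SC_le_u hact), Subgroup.map_mono (SC_le_v hact), ?_⟩
  · -- generation
    apply le_antisymm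
    · rintro _ ⟨g, rfl⟩
      obtain ⟨w, rfl⟩ := hbij'.2 g
      induction w using PushoutI.induction_on with
      | of i a =>
        rw [hnat_of]
        fin_cases i
        · exact Subgroup.mem_sup_left ⟨_, a.2, rfl⟩
        · exact Subgroup.mem_sup_right ⟨_, a.2, rfl⟩
      | base c =>
        have h0 := PushoutI.of_apply_eq_base φ 0 c
        rw [← h0, hnat_of]
        exact Subgroup.mem_sup_left ⟨_, (φ 0 c).2, rfl⟩
      | mul x y hx hy =>
        rw [map_mul, map_mul]
        exact Subgroup.mul_mem _ hx hy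
    · rw [sup_le_iff]
      constructor
      · rintro _ ⟨a, _, rfl⟩
        exact ⟨a, rfl⟩
      · rintro _ ⟨a, _, rfl⟩
        exact ⟨a, rfl⟩
  · intro R _ _ r r' hr hr' hrr
    obtain ⟨a0, ha0⟩ := exists_pull j hr
    obtain ⟨a1, ha1⟩ := exists_pull j hr'
    let fi : ∀ i, S i →* SpecialLinearGroup (Fin 2) R := fun i =>
      match i with
      | 0 => a0
      | 1 => a1
    have hf0 : ∀ a : S 0, fi 0 a = r (j a) := ha0
    have hf1 : ∀ a : S 1, fi 1 a = r' (j a) := ha1
    let base : SC G u v →* SpecialLinearGroup (Fin 2) R := (fi 0).comp (φ 0)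
    have hcomp : ∀ i, (fi i).comp (φ i) = base := by
      intro i
      fin_cases i
      · rfl
      · ext c : 1
        show fi 1 (φ 1 c) = fi 0 (φ 0 c)
        rw [hf0, hf1]
        exact (hrr (j (c : G)) ⟨_, c.2, rfl⟩).symm
    let ψ : PushoutI φ →* SpecialLinearGroup (Fin 2) R := PushoutI.lift fi base hcomp
    have hψ : ∀ i (a : S i), ψ (PushoutI.of i a) = fi i a := fun i a => PushoutI.lift_of fi base hcomp a
    let rG : G →* SpecialLinearGroup (Fin 2) R := ψ.comp Φ.symm.toMonoidHom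
    obtain ⟨q, hq1, hq2⟩ := hj.desc rG
    refine ⟨q, hq1, ?_, ?_⟩
    · rintro _ ⟨a, ha, rfl⟩
      rw [hq2]
      show ψ (Φ.symm a) = _
      have h1 := hΦ 0 ⟨a, ha⟩
      have h1' : Φ.symm a = PushoutI.of 0 (⟨a, ha⟩ : S 0) := h1
      rw [h1', hψ, hf0]
    · rintro _ ⟨a, ha, rfl⟩
      rw [hq2]
      show ψ (Φ.symm a) = _
      have h1 := hΦ 1 ⟨a, ha⟩
      have h1' : Φ.symm a = PushoutI.of 1 (⟨a, ha⟩ : S 1) := h1
      rw [h1', hψ, hf1]

include hact in
/-- conjugation by the stable letter -/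
theorem conj_Sst {t : G} (ht : Rch G X u v (t • u) v) {k : G}
    (hk : k ∈ Sst (u := u) (v := v) hact v) : t⁻¹ * k * t ∈ Sst (u := u) (v := v) hact u := by
  rw [mem_Sst] at hk ⊢
  have h1 := ht.smul hact k
  have h2 := ((h1.trans hk).trans ht.symm).smul hact t⁻¹
  rw [inv_smul_smul] at h2
  rw [mul_smul, mul_smul]
  exact h2

/-- HNN -/
theorem isHn (j : G →* Γ) (hj : Fac j) (hX : X.IsTree)
    (hinv : ∀ g : G, ¬ (g • u = v ∧ g • v = u)) (huv : X.Adj u v)
    (t : G) (ht : Rch G X u v (t • u) v) :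
    IsHn j.range ((Sst (u := u) (v := v) hact u).map j) ((SC G u v).map j) (j t) := by
  obtain ⟨A, hA⟩ : ∃ A, A = Sst (u := u) (v := v) hact u := ⟨_, rfl⟩
  obtain ⟨C₁, C₂, φ, hC1, hC2, hφ⟩ := hnn_data hact t ht A hA
  have hbij := hnn hact hX hinv huv t ht A hA C₁ C₂ hC1 hC2 φ hφ
  set nat : HNNExtension A C₁ C₂ φ →* G := HNNExtension.lift (φ := φ) A.subtype t
      (fun a => by rw [Subgroup.subtype_apply, Subgroup.subtype_apply, hφ]; group) with hnat
  have hnat_of : ∀ (a : A), nat (HNNExtension.of a) = a := by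
    intro a
    rw [hnat, HNNExtension.lift_of]
    rfl
  have hnat_t : nat HNNExtension.t = t := by
    rw [hnat, HNNExtension.lift_t]
  have hbij' : Function.Bijective nat := hbij
  let Φ : HNNExtension A C₁ C₂ φ ≃* G := MulEquiv.ofBijective nat hbij'
  have hΦ : ∀ a : A, Φ.symm (a : G) = HNNExtension.of a := by
    intro a
    rw [MulEquiv.symm_apply_eq]
    exact (hnat_of a).symm
  have hΦt : Φ.symm t = HNNExtension.t := by
    rw [MulEquiv.symm_apply_eq]
    exact hnat_t.symm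
  rw [← hA]
  have hCA : SC G u v ≤ A := by rw [hA]; exact SC_le_u hact
  refine ⟨?_, Subgroup.map_mono hCA, ?_, ?_⟩
  · -- generation
    apply le_antisymm
    · rintro _ ⟨g, rfl⟩
      obtain ⟨w, rfl⟩ := hbij'.2 g
      induction w using HNNExtension.induction_on with
      | of a =>
        rw [hnat_of]
        exact Subgroup.mem_sup_left ⟨_, a.2, rfl⟩
      | t =>
        rw [hnat_t]
        exact Subgroup.mem_sup_right (Subgroup.mem_zpowers _)
      | mul x y hx hy =>
        rw [map_mul, map_mul]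
        exact Subgroup.mul_mem _ hx hy
      | inv x hx =>
        rw [map_inv, map_inv]
        exact Subgroup.inv_mem _ hx
    · rw [sup_le_iff]
      constructor
      · rintro _ ⟨a, _, rfl⟩
        exact ⟨a, rfl⟩
      · rw [Subgroup.zpowers_le]
        exact ⟨t, rfl⟩
  · rintro _ ⟨c, hc, rfl⟩
    rw [← map_inv, ← map_mul, ← map_mul]
    refine ⟨_, ?_, rfl⟩
    rw [hA]
    exact conj_Sst hact ht (SC_le_v hact hc)
  · intro R _ _ r τ hr hrr
    obtain ⟨a0, ha0⟩ := exists_pull j hr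
    let ψ : HNNExtension A C₁ C₂ φ →* SpecialLinearGroup (Fin 2) R :=
      HNNExtension.lift (φ := φ) a0 τ (by
        intro a
        rw [ha0, ha0, hφ]
        have h1 := hrr (j (t * ((a : A) : G) * t⁻¹)) ⟨_, (hC1 _).1 a.2, rfl⟩
        rw [← map_inv, ← map_mul, ← map_mul] at h1
        have h2 : t⁻¹ * (t * ((a : A) : G) * t⁻¹) * t = ((a : A) : G) := by group
        rw [h2] at h1
        rw [h1, inv_mul_cancel_right])
    have hψ : ∀ a : A, ψ (HNNExtension.of a) = a0 a := fun a => HNNExtension.lift_of _ _ _ a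
    have hψt : ψ HNNExtension.t = τ := HNNExtension.lift_t _ _ _
    let rG : G →* SpecialLinearGroup (Fin 2) R := ψ.comp Φ.symm.toMonoidHom
    obtain ⟨q, hq1, hq2⟩ := hj.desc rG
    refine ⟨q, hq1, ?_, ?_⟩
    · rintro _ ⟨a, ha, rfl⟩
      rw [hq2]
      show ψ (Φ.symm a) = _
      have h1 := hΦ ⟨a, ha⟩
      have h1' : Φ.symm a = HNNExtension.of (⟨a, ha⟩ : A) := h1
      rw [h1', hψ, ha0]
    · rw [hq2]
      show ψ (Φ.symm t) = _
      rw [hΦt, hψt]

/-- finite generation in the amalgam case -/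
theorem fg_am (hfg : Pool.Agent.FrR.S_fgA) [Group.FG G] (hX : X.IsTree)
    (hinv : ∀ g : G, ¬ (g • u = v ∧ g • v = u)) (huv : X.Adj u v)
    (hno : ∀ g : G, ¬ Rch G X u v (g • u) v) (hSC : (SC G u v).FG) :
    (Sst (u := u) (v := v) hact u).FG ∧ (Sst (u := u) (v := v) hact v).FG := by
  let S : Fin 2 → Subgroup G := fun i => if i = 0 then Sst (u := u) (v := v) hact u else
    Sst (u := u) (v := v) hact v
  have hS0 : S 0 = Sst (u := u) (v := v) hact u := rfl
  have hS1 : S 1 = Sst (u := u) (v := v) hact v := rfl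
  have hC : ∀ i, SC G u v ≤ S i := by
    intro i
    fin_cases i
    · exact SC_le_u hact
    · exact SC_le_v hact
  have hbij := amalg hact hX hinv huv hno S hS0 hS1 hC
  have hinj : ∀ i, Function.Injective (Subgroup.inclusion (hC i)) :=
    fun i => Subgroup.inclusion_injective _
  let Φ : PushoutI (fun i => Subgroup.inclusion (hC i)) ≃* G := MulEquiv.ofBijective _ hbij
  have h1 : Group.FG (PushoutI (fun i => Subgroup.inclusion (hC i))) :=
    Group.fg_of_surjective (f := Φ.symm.toMonoidHom) Φ.symm.surjective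
  have h2 : Group.FG (SC G u v) := (Group.fg_iff_subgroup_fg _).2 hSC
  have h3 := hfg (SC G u v) (fun i => S i) _ hinj h2 h1
  exact ⟨(Group.fg_iff_subgroup_fg _).1 (h3 0), (Group.fg_iff_subgroup_fg _).1 (h3 1)⟩

/-- finite generation in the HNN case -/
theorem fg_hn (hfg : Pool.Agent.FrR.S_fgH) [Group.FG G] (hX : X.IsTree)
    (hinv : ∀ g : G, ¬ (g • u = v ∧ g • v = u)) (huv : X.Adj u v)
    (t : G) (ht : Rch G X u v (t • u) v) (hSC : (SC G u v).FG) :
    (Sst (u := u) (v := v) hact u).FG := by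
  obtain ⟨C₁, C₂, φ, hC1, hC2, hφ⟩ := hnn_data hact t ht (Sst (u := u) (v := v) hact u) rfl
  have hbij := hnn hact hX hinv huv t ht (Sst (u := u) (v := v) hact u) rfl C₁ C₂ hC1 hC2 φ hφ
  let Φ : HNNExtension (Sst (u := u) (v := v) hact u) C₁ C₂ φ ≃* G := MulEquiv.ofBijective _ hbij
  have h1 : Group.FG (HNNExtension (Sst (u := u) (v := v) hact u) C₁ C₂ φ) :=
    Group.fg_of_surjective (f := Φ.symm.toMonoidHom) Φ.symm.surjective
  have h2 : Group.FG (SC G u v) := (Group.fg_iff_subgroup_fg _).2 hSC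
  have h3 : Group.FG C₂ := by
    let f : SC G u v →* C₂ :=
      { toFun := fun c => ⟨⟨c, SC_le_u hact c.2⟩, (hC2 _).2 c.2⟩
        map_one' := rfl
        map_mul' := fun _ _ => rfl }
    refine Group.fg_of_surjective (f := f) ?_
    rintro ⟨⟨c, hc⟩, hc'⟩
    exact ⟨⟨c, (hC2 _).1 hc'⟩, rfl⟩
  have h4 : Group.FG C₁ := Group.fg_of_surjective (f := φ.symm.toMonoidHom) φ.symm.surjective
  exact (Group.fg_iff_subgroup_fg _).1 (hfg _ C₁ C₂ φ ((Group.fg_iff_subgroup_fg _).1 h4) h1)

end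

end Pool.Agent.FrV
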