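import Pool.Agent.Lib.MP_305fdd_al.Fr.V.Defs
import Pool.Agent.Lib.MP_305fdd_al.Fr.P.Ext

/-!
# MP_305fdd_al, F_r: fixed points of commuting elements in characteristic two; values of algebraic
elements
-/

set_option autoImplicit false
set_option linter.unusedSectionVars false

namespace Pool.Agent.FrV

open Pool.Agent.F2Ch Pool.Agent.FrR Matrix

/-- an element which commutes with a nontrivial elliptic element with separated eigenvalues and has
an integral trace fixes the same points -/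
theorem fix_comm {L : Type} [Field L] [Algebra (ZMod 2) L] {V : RV L}
    {z w : SpecialLinearGroup (Fin 2) L} {p q : Tr V} (hpq : p ≠ q) (z1 : z • p = p)
    (z2 : z • q = q) (hz0 : tr z ≠ 0) (hz : V.v (tr z) = 0) (hzw : z * w = w * z)
    (hw : V.Ge 0 (tr w)) : w • p = p := by
  obtain ⟨k, τ, hp, hq⟩ := split p q
  set D := dist p q with hD
  have hD0 : 0 < D := dist_pos.2 hpq
  rw [hp, fix_coord] at z1 ⊢
  rw [hq, fix_coord] at z2
  have hab : (k⁻¹ * z * k) * (k⁻¹ * w * k) = (k⁻¹ * w * k) * (k⁻¹ * z * k) := by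
    have e1 : (k⁻¹ * z * k) * (k⁻¹ * w * k) = k⁻¹ * (z * w) * k := by group
    have e2 : (k⁻¹ * w * k) * (k⁻¹ * z * k) = k⁻¹ * (w * z) * k := by group
    rw [e1, e2, hzw]
  have htz := tr_conj k z
  have htw := tr_conj k w
  set a := k⁻¹ * z * k with ha
  set b := k⁻¹ * w * k with hb
  obtain ⟨-, a11, a00, a01⟩ := z1
  obtain ⟨a10, -, -, -⟩ := z2
  rw [comm_iff] at hab
  obtain ⟨-, c2, c3⟩ := hab
  have hu : a.1 0 0 - a.1 1 1 = tr z := by
    rw [← htz, sub_eq]
    rfl
  have hv : b.1 0 0 - b.1 1 1 = tr w := by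
    rw [← htw, sub_eq]
    rfl
  rw [hu, hv] at c2 c3
  have hinv : V.Ge 0 (tr z)⁻¹ := by
    right
    rw [V.v_inv hz0, hz]
    simp
  have e10 : b.1 1 0 = a.1 1 0 * tr w * (tr z)⁻¹ := by
    rw [c3, mul_assoc, mul_inv_cancel₀ hz0, mul_one]
  have e01 : b.1 0 1 = a.1 0 1 * tr w * (tr z)⁻¹ := by
    rw [← c2, mul_assoc, mul_inv_cancel₀ hz0, mul_one]
  have b10 : V.Ge (2 * τ) (b.1 1 0) := by
    rw [e10]
    exact ((a10.mul hw).mul hinv).mono (by linarith)
  have b10' : V.Ge (2 * (τ + D)) (b.1 1 0) := by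
    rw [e10]
    exact ((a10.mul hw).mul hinv).mono (by linarith)
  have b01 : V.Ge (-(2 * τ)) (b.1 0 1) := by
    rw [e01]
    exact ((a01.mul hw).mul hinv).mono (by linarith)
  have hprod : V.Ge 0 (b.1 0 0 * b.1 1 1) := by
    have hd := det_one b
    have e1 : b.1 0 0 * b.1 1 1 = 1 + b.1 0 1 * b.1 1 0 := by linear_combination hd
    rw [e1]
    exact V.ge_one.add ((b01.mul b10').mono (by linarith))
  have hint : ∀ s t : L, s + t = tr w → V.Ge 0 (s * t) → V.Ge 0 s := by
    intro s t h1 h2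
    by_contra hcon
    have hs0 : s ≠ 0 := fun h => hcon (Or.inl h)
    have hsn : V.v s < 0 := by
      by_contra h
      exact hcon (Or.inr (not_lt.1 h))
    have e1 : s * s = tr w * s - s * t := by rw [← h1]; ring
    have h3 : V.Ge (V.v s) (s * s) := by
      rw [e1]
      exact ((hw.mul (V.ge_self s)).mono (by linarith)).sub (h2.mono hsn.le)
    rw [V.ge_iff (mul_ne_zero hs0 hs0), V.v_mul hs0 hs0] at h3
    linarith
  have hsum : b.1 0 0 + b.1 1 1 = tr w := htw
  refine ⟨b10, hint _ _ (by rw [add_comm]; exact hsum) (by rw [mul_comm]; exact hprod),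
    hint _ _ hsum hprod, b01⟩

/-- the value of an algebraic element -/
theorem val_alg {K : Type} [Field K] {x : K → ℝ} (hx : IsV x) (A : Subring K)
    (h0 : ∀ a ∈ A, x a = 0) {y : K} (hy : IsAlgebraic A y) : x y = 0 := by
  by_cases hy0 : y = 0
  · rw [hy0, hx.zero]
  obtain ⟨g, hg, hgy⟩ := hy
  have hinj : Function.Injective (algebraMap A K) := Subtype.val_injective
  have hg' : g.map (algebraMap A K) ≠ 0 := by
    rw [Ne, Polynomial.map_eq_zero_iff hinj]
    exact hg
  have hev : (g.map (algebraMap A K)).eval y = 0 := by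
    rw [Polynomial.eval_map, ← Polynomial.aeval_def]
    exact hgy
  obtain ⟨i, j, hij, hi, hj, he, -⟩ := FrP.exists_tie hx _ hy0 hg' hev
  rw [Polynomial.coeff_map, Polynomial.coeff_map] at he
  have hi' : x (algebraMap A K (g.coeff i)) = 0 := h0 _ (g.coeff i).2
  have hj' : x (algebraMap A K (g.coeff j)) = 0 := h0 _ (g.coeff j).2
  rw [hi', hj', zero_add, zero_add] at he
  by_contra hne
  apply hij
  have := mul_right_cancel₀ hne he
  exact_mod_cast this

/-- descent of algebraicity -/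
theorem alg_desc {K F : Type} [Field K] [Field F] [Algebra (ZMod 2) K] [Algebra (ZMod 2) F]
    [Algebra K F] (D : Set K) {y : K}
    (h : IsAlgebraic (Algebra.adjoin (ZMod 2) (algebraMap K F '' D)) (algebraMap K F y)) :
    IsAlgebraic (Algebra.adjoin (ZMod 2) D) y := by
  have tow : IsScalarTower (ZMod 2) K F := by
    refine IsScalarTower.of_algebraMap_eq' ?_
    exact Subsingleton.elim _ _
  let g : K →ₐ[ZMod 2] F := IsScalarTower.toAlgHom (ZMod 2) K F
  have hmap : (Algebra.adjoin (ZMod 2) D).map g = Algebra.adjoin (ZMod 2) (algebraMap K F '' D) :=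
    AlgHom.map_adjoin g D
  have hmem : ∀ a : Algebra.adjoin (ZMod 2) D, g a ∈ Algebra.adjoin (ZMod 2) (algebraMap K F '' D) := by
    intro a
    rw [← hmap]
    exact ⟨a, a.2, rfl⟩
  let f : Algebra.adjoin (ZMod 2) D →+* Algebra.adjoin (ZMod 2) (algebraMap K F '' D) :=
    { toFun := fun a => ⟨g a, hmem a⟩
      map_one' := Subtype.ext (map_one g)
      map_mul' := fun a b => Subtype.ext (map_mul g (a : K) (b : K))
      map_zero' := Subtype.ext (map_zero g)
      map_add' := fun a b => Subtype.ext (map_add g (a : K) (b : K)) }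
  refine h.of_ringHom_of_comp_eq f (algebraMap K F) ?_ (algebraMap K F).injective ?_
  · rintro ⟨b, hb⟩
    rw [← hmap] at hb
    obtain ⟨a, ha, rfl⟩ := hb
    exact ⟨⟨a, ha⟩, rfl⟩
  · ext a
    rfl

end Pool.Agent.FrV
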