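import Pool.Agent.Lib.MP_305fdd_al.Fr.V.FP

/-!
# MP_305fdd_al, F_r, INPUT-R: the finitely presented cover with lifts of abelian subgroups
-/

set_option autoImplicit false
set_option linter.unusedSectionVars false

namespace Pool.Agent.FrV

open Matrix

theorem comm_closure {G : Type} [Group G] {S : Set G} (h : ∀ x ∈ S, ∀ y ∈ S, x * y = y * x) :
    ∀ x ∈ Subgroup.closure S, ∀ y ∈ Subgroup.closure S, x * y = y * x := by
  have h1 : Subgroup.closure S ≤ Subgroup.centralizer (Subgroup.centralizer S : Set G) :=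
    Subgroup.closure_le_centralizer_centralizer S
  have h2 : Subgroup.closure S ≤ Subgroup.centralizer S := by
    rw [Subgroup.closure_le]
    intro x hx
    rw [SetLike.mem_coe, Subgroup.mem_centralizer_iff]
    exact fun y hy => h y hy x hx
  intro x hx y hy
  have h3 := h1 hx
  rw [Subgroup.mem_centralizer_iff] at h3
  exact (h3 y (h2 hy)).symm

/-- (4), (5) -/
theorem exists_cover (Γ ι : Type) [Group Γ] [Group.FG Γ] [Finite ι] (E : ι → Subgroup Γ)
    (hE : ∀ i, (E i).FG) (hab : ∀ i, ∀ a ∈ E i, ∀ b ∈ E i, a * b = b * a) :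
    ∃ (G : Type) (_ : Group G) (n : ℕ) (π₀ : FreeGroup (Fin n) →* G)
      (R₀ : Finset (FreeGroup (Fin n))) (q : G →* Γ) (E' : ι → Subgroup G),
      Function.Surjective π₀ ∧ π₀.ker = Subgroup.normalClosure (R₀ : Set (FreeGroup (Fin n))) ∧
      Function.Surjective q ∧
      (∀ (R : Type) [CommRing R] [Algebra (ZMod 2) R] (r : G →* SpecialLinearGroup (Fin 2) R),
        q.ker ≤ r.ker) ∧
      (∀ i, (E' i).FG) ∧ (∀ i, ∀ a ∈ E' i, ∀ b ∈ E' i, a * b = b * a) ∧
      ∀ i, (E' i).map q = E i := by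
  classical
  have := Fintype.ofFinite ι
  obtain ⟨n, π, W, hπ, hW, hrep⟩ := exists_fp Γ
  choose S hS using hE
  choose lft hlft using hπ
  let W' : Finset (FreeGroup (Fin n)) := W ∪ Finset.univ.biUnion fun i : ι =>
    ((S i) ×ˢ (S i)).image fun p => lft p.1 * lft p.2 * (lft p.1)⁻¹ * (lft p.2)⁻¹
  have hW' : ∀ w ∈ W', π w = 1 := by
    intro w hw
    rcases Finset.mem_union.mp hw with hw | hw
    · exact hW w hw
    · obtain ⟨i, -, hw⟩ := Finset.mem_biUnion.mp hw
      obtain ⟨⟨a, b⟩, hab', rfl⟩ := Finset.mem_image.mp hw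
      obtain ⟨ha, hb⟩ := Finset.mem_product.mp hab'
      simp only [map_mul, map_inv, hlft]
      have ha' : a ∈ E i := by rw [← hS i]; exact Subgroup.subset_closure ha
      have hb' : b ∈ E i := by rw [← hS i]; exact Subgroup.subset_closure hb
      rw [hab i a ha' b hb']
      group
  let N : Subgroup (FreeGroup (Fin n)) := Subgroup.normalClosure (W' : Set (FreeGroup (Fin n)))
  have hNle : N ≤ π.ker := Subgroup.normalClosure_le_normal hW'
  let q : FreeGroup (Fin n) ⧸ N →* Γ := QuotientGroup.lift N π hNle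
  have hq : ∀ w : FreeGroup (Fin n), q (QuotientGroup.mk w) = π w := fun w => rfl
  let E' : ι → Subgroup (FreeGroup (Fin n) ⧸ N) := fun i =>
    Subgroup.closure ((fun a => (QuotientGroup.mk (lft a) : FreeGroup (Fin n) ⧸ N)) '' (S i))
  refine ⟨FreeGroup (Fin n) ⧸ N, inferInstance, n, QuotientGroup.mk' N, W', q, E',
    QuotientGroup.mk'_surjective N, QuotientGroup.ker_mk' N, ?_, ?_, ?_, ?_, ?_⟩
  · intro g
    exact ⟨QuotientGroup.mk (lft g), by rw [hq, hlft]⟩
  · intro R _ _ r x hx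
    obtain ⟨w, rfl⟩ := QuotientGroup.mk_surjective x
    have h1 : π w = 1 := hx
    have h2 : ∀ w ∈ W, (r.comp (QuotientGroup.mk' N)) w = 1 := by
      intro w hw
      have h3 : (QuotientGroup.mk' N) w = 1 := by
        rw [← MonoidHom.mem_ker, QuotientGroup.ker_mk']
        exact Subgroup.subset_normalClosure (Finset.mem_coe.mpr (Finset.mem_union_left _ hw))
      rw [MonoidHom.comp_apply, h3, map_one]
    exact hrep R (r.comp (QuotientGroup.mk' N)) h2 w h1
  · intro i
    exact ⟨(S i).image fun a => (QuotientGroup.mk (lft a) : FreeGroup (Fin n) ⧸ N), by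
      rw [Finset.coe_image]⟩
  · intro i
    refine comm_closure ?_
    rintro _ ⟨a, ha, rfl⟩ _ ⟨b, hb, rfl⟩
    have h1 : lft a * lft b * (lft a)⁻¹ * (lft b)⁻¹ ∈ N := by
      refine Subgroup.subset_normalClosure (Finset.mem_coe.mpr (Finset.mem_union_right _ ?_))
      exact Finset.mem_biUnion.mpr ⟨i, Finset.mem_univ _, Finset.mem_image.mpr
        ⟨(a, b), Finset.mem_product.mpr ⟨ha, hb⟩, rfl⟩⟩
    have h2 : (QuotientGroup.mk (lft a * lft b * (lft a)⁻¹ * (lft b)⁻¹) :
        FreeGroup (Fin n) ⧸ N) = 1 := (QuotientGroup.eq_one_iff _).mpr h1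
    have h3 : (QuotientGroup.mk (lft a) : FreeGroup (Fin n) ⧸ N) * QuotientGroup.mk (lft b) =
        QuotientGroup.mk (lft a * lft b * (lft a)⁻¹ * (lft b)⁻¹) *
          (QuotientGroup.mk (lft b) * QuotientGroup.mk (lft a)) := by
      rw [← QuotientGroup.mk_mul, ← QuotientGroup.mk_mul, ← QuotientGroup.mk_mul]
      congr 1
      group
    show (QuotientGroup.mk (lft a) : FreeGroup (Fin n) ⧸ N) * QuotientGroup.mk (lft b) =
      QuotientGroup.mk (lft b) * QuotientGroup.mk (lft a)
    rw [h3, h2, one_mul]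
  · intro i
    rw [MonoidHom.map_closure, ← hS i]
    congr 1
    ext a
    constructor
    · rintro ⟨_, ⟨b, hb, rfl⟩, rfl⟩
      rw [hq, hlft]
      exact hb
    · intro ha
      exact ⟨_, ⟨a, ha, rfl⟩, by rw [hq, hlft]⟩

end Pool.Agent.FrV
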