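import Pool.Agent.Lib.MP_305fdd_al.Fr.V.Diag

/-!
# MP_305fdd_al, F_r, INPUT-R: descent to a finitely generated field
-/

set_option autoImplicit false
set_option linter.unusedSectionVars false

namespace Pool.Agent.FrV

open Pool.Agent.FrN Pool.Agent.F2Ch Matrix

variable {Γ K F : Type} [Group Γ] [Field K] [Field F] [Algebra (ZMod 2) K]
  [Algebra (ZMod 2) F] [Algebra K F] {T : Γ → K} {ρ : Γ →* SpecialLinearGroup (Fin 2) F}

/-- restriction of the entries to a subfield -/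
theorem restr {Ω : Type} [Field Ω] [Algebra K Ω] (L : IntermediateField K Ω)
    (r : Γ →* SpecialLinearGroup (Fin 2) Ω) (h : ∀ g i j, (r g).1 i j ∈ L) :
    ∃ r' : Γ →* SpecialLinearGroup (Fin 2) L, ∀ g i j, (((r' g).1 i j : L) : Ω) = (r g).1 i j := by
  have hdet : ∀ g, (Matrix.of fun i j => (⟨(r g).1 i j, h g i j⟩ : L)).det = 1 := by
    intro g
    apply Subtype.ext
    rw [Matrix.det_fin_two]
    exact FrR.det_one (r g)
  refine ⟨{ toFun := fun g => ⟨Matrix.of fun i j => (⟨(r g).1 i j, h g i j⟩ : L), hdet g⟩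
            map_one' := ?_, map_mul' := ?_ }, fun _ _ _ => rfl⟩
  · apply Subtype.ext
    ext i j
    show (r 1).1 i j = (((1 : Matrix (Fin 2) (Fin 2) L) i j : L) : Ω)
    rw [map_one]
    by_cases hij : i = j
    · rw [hij, Matrix.one_apply_eq]
      show (1 : Matrix (Fin 2) (Fin 2) Ω) j j = 1
      rw [Matrix.one_apply_eq]
    · rw [Matrix.one_apply_ne hij]
      show (1 : Matrix (Fin 2) (Fin 2) Ω) i j = 0
      rw [Matrix.one_apply_ne hij]
  · intro g g'
    apply Subtype.ext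
    ext i j
    show (r (g * g')).1 i j = (((Matrix.of fun i j => (⟨(r g).1 i j, h g i j⟩ : L)) *
      (Matrix.of fun i j => (⟨(r g').1 i j, h g' i j⟩ : L))) i j : L)
    rw [map_mul, FrR.mul_app, Matrix.mul_apply, Fin.sum_univ_two]
    rfl

/-- generation of `K(ψ)` -/
theorem gen_top {Ω : Type} [Field Ω] [Algebra K Ω] (ψ : Ω)
    (N : Subfield (IntermediateField.adjoin K {ψ}))
    (hK : ∀ c : K, algebraMap K (IntermediateField.adjoin K {ψ}) c ∈ N)
    (hgen : (⟨ψ, IntermediateField.mem_adjoin_simple_self K ψ⟩ :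
      IntermediateField.adjoin K {ψ}) ∈ N) : ∀ y, y ∈ N := by
  rintro ⟨y, hy⟩
  induction hy using IntermediateField.adjoin_induction with
  | mem x hx =>
    have h1 : x = ψ := hx
    have h2 : (⟨x, IntermediateField.subset_adjoin _ _ hx⟩ : IntermediateField.adjoin K {ψ}) =
      ⟨ψ, IntermediateField.mem_adjoin_simple_self K ψ⟩ := Subtype.ext h1
    rw [h2]
    exact hgen
  | algebraMap x => exact hK x
  | add x y hx hy h1 h2 => exact N.add_mem h1 h2
  | inv x hx h1 => exact N.inv_mem h1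
  | mul x y hx hy h1 h2 => exact N.mul_mem h1 h2

/-- `ψ` is algebraic -/
theorem psi_alg {Ω : Type} [Field Ω] [Algebra K Ω] {ψ : Ω} (hψ0 : ψ ≠ 0) {t : K}
    (hψ : ψ + ψ⁻¹ = algebraMap K Ω t) : Algebra.IsAlgebraic K (IntermediateField.adjoin K {ψ}) := by
  have h2 : IsAlgebraic K ψ := by
    refine ⟨Polynomial.X ^ 2 - Polynomial.C t * Polynomial.X + Polynomial.C 1, ?_, ?_⟩
    · intro h0
      have h3 : (Polynomial.X ^ 2 - Polynomial.C t * Polynomial.X + Polynomial.C 1 :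
        Polynomial K).natDegree = 2 := by compute_degree!
      rw [h0] at h3
      simp at h3
    · simp only [map_add, map_sub, map_pow, map_mul, Polynomial.aeval_X, Polynomial.aeval_C,
        map_one]
      rw [← hψ]
      field_simp
      ring
  exact IntermediateField.isAlgebraic_adjoin_simple (isAlgebraic_iff_isIntegral.mp h2)

/-- all entries are in `K(ψ)` -/
theorem ent_mem {Ω : Type} [Field Ω] [Algebra (ZMod 2) Ω] [Algebra K Ω]
    (r : Γ →* SpecialLinearGroup (Fin 2) Ω)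
    (htr : ∀ g, FrR.tr (r g) = algebraMap K Ω (T g)) (L : IntermediateField K Ω) {ψ : Ω}
    (hψL : ψ ∈ L) {g0 : Γ} (ht : T g0 ≠ 0) (hψ : ψ + ψ⁻¹ = algebraMap K Ω (T g0))
    (g00 : (r g0).1 0 0 = ψ) (g11 : (r g0).1 1 1 = ψ⁻¹) (g01 : (r g0).1 0 1 = 0)
    (g10 : (r g0).1 1 0 = 0) (u : Γ) (hu1 : (r u).1 0 1 = 1) (hu2 : (r u).1 1 0 ≠ 0) :
    ∀ g i j, (r g).1 i j ∈ L := by
  have hTL : ∀ g, algebraMap K Ω (T g) ∈ L := fun g => L.algebraMap_mem _
  have ht0 : algebraMap K Ω (T g0) ≠ 0 := by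
    rw [Ne, map_eq_zero]
    exact ht
  have two0 : (2 : Ω) = 0 := two_eq_zero Ω
  have hdiag : ∀ g, (r g).1 0 0 ∈ L ∧ (r g).1 1 1 ∈ L := by
    intro g
    have e1 : (r g).1 0 0 + (r g).1 1 1 = algebraMap K Ω (T g) := htr g
    have e2 : ψ * (r g).1 0 0 + ψ⁻¹ * (r g).1 1 1 = algebraMap K Ω (T (g0 * g)) := by
      rw [← htr, map_mul]
      unfold FrR.tr
      rw [FrR.mul_app, FrR.mul_app, g00, g11, g01, g10]
      ring
    have e3 : (r g).1 0 0 =
        (algebraMap K Ω (T (g0 * g)) - ψ⁻¹ * algebraMap K Ω (T g)) / algebraMap K Ω (T g0) := by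
      rw [eq_div_iff ht0, ← hψ, ← e1, ← e2]
      linear_combination ψ⁻¹ * (r g).1 0 0 * two0
    have m1 : (r g).1 0 0 ∈ L := by
      rw [e3]
      exact div_mem (sub_mem (hTL _) (mul_mem (inv_mem hψL) (hTL _))) (hTL _)
    refine ⟨m1, ?_⟩
    have e4 : (r g).1 1 1 = algebraMap K Ω (T g) - (r g).1 0 0 := by rw [← e1]; ring
    rw [e4]
    exact sub_mem (hTL _) m1
  have hu10 : (r u).1 1 0 ∈ L := by
    have hd := FrR.det_one (r u)
    rw [hu1, one_mul] at hd
    have e1 : (r u).1 1 0 = (r u).1 0 0 * (r u).1 1 1 - 1 := by linear_combination -hd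
    rw [e1]
    exact sub_mem (mul_mem (hdiag u).1 (hdiag u).2) (one_mem L)
  intro g
  have e1 : (r (g * u)).1 0 0 = (r g).1 0 0 * (r u).1 0 0 + (r g).1 0 1 * (r u).1 1 0 := by
    rw [map_mul, FrR.mul_app]
  have e2 : (r (g * u)).1 1 1 = (r g).1 1 0 * 1 + (r g).1 1 1 * (r u).1 1 1 := by
    rw [map_mul, FrR.mul_app, hu1]
  have m01 : (r g).1 0 1 ∈ L := by
    have e3 : (r g).1 0 1 = ((r (g * u)).1 0 0 - (r g).1 0 0 * (r u).1 0 0) / (r u).1 1 0 := by
      rw [eq_div_iff hu2, e1]; ring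
    rw [e3]
    exact div_mem (sub_mem (hdiag _).1 (mul_mem (hdiag _).1 (hdiag _).1)) hu10
  have m10 : (r g).1 1 0 ∈ L := by
    have e3 : (r g).1 1 0 = (r (g * u)).1 1 1 - (r g).1 1 1 * (r u).1 1 1 := by
      rw [e2]; ring
    rw [e3]
    exact sub_mem (hdiag _).2 (mul_mem (hdiag _).2 (hdiag _).2)
  intro i j
  fin_cases i <;> fin_cases j
  · exact (hdiag g).1
  · exact m01
  · exact m10
  · exact (hdiag g).2

/-- a field which contains the entries contains the traces and `K` -/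
theorem VG.K_mem (h : VG Γ K F T ρ) {L : Type} [Field L] [Algebra (ZMod 2) L] [Algebra K L]
    (r : Γ →* SpecialLinearGroup (Fin 2) L) (htr : ∀ g, FrR.tr (r g) = algebraMap K L (T g))
    (N : IntermediateField (ZMod 2) L) (hent : ∀ g i j, (r g).1 i j ∈ N) (c : K) :
    algebraMap K L c ∈ N := by
  have tow : IsScalarTower (ZMod 2) K L := by
    refine IsScalarTower.of_algebraMap_eq' ?_
    exact Subsingleton.elim _ _
  have hT : ∀ b ∈ BB 2 T, algebraMap K L b ∈ N := by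
    intro b hb
    induction hb using Algebra.adjoin_induction with
    | mem b hb =>
      obtain ⟨g, rfl⟩ := hb
      rw [← htr]
      exact add_mem (hent g 0 0) (hent g 1 1)
    | algebraMap c =>
      rw [← IsScalarTower.algebraMap_apply (ZMod 2) K L]
      exact N.algebraMap_mem c
    | add a b _ _ ha hb => rw [map_add]; exact add_mem ha hb
    | mul a b _ _ ha hb => rw [map_mul]; exact mul_mem ha hb
  obtain ⟨a, ha, b, hb, hb0, hab⟩ := h.frac c
  have e1 : c = a / b := by rw [eq_div_iff hb0, hab]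
  rw [e1, map_div₀]
  exact div_mem (hT a ha) (hT b hb)

/-- `L` is finitely generated -/
theorem VG.gen_aux (h : VG Γ K F T ρ) {L : Type} [Field L] [Algebra (ZMod 2) L] [Algebra K L]
    (r : Γ →* SpecialLinearGroup (Fin 2) L) (htr : ∀ g, FrR.tr (r g) = algebraMap K L (T g))
    (g0 : Γ) (hfull : ∀ N : Subfield L, (∀ c : K, algebraMap K L c ∈ N) → (r g0).1 0 0 ∈ N →
      ∀ y, y ∈ N) : ∃ S : Finset L, IntermediateField.adjoin (ZMod 2) (S : Set L) = ⊤ := by
  have hinst := h.fg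
  obtain ⟨S, hS⟩ := FrX.OO_fg (p := 2) r
  have hO : ∀ y ∈ OO 2 r, y ∈ IntermediateField.adjoin (ZMod 2) (S : Set L) := by
    intro y hy
    rw [← hS] at hy
    exact IntermediateField.algebra_adjoin_le_adjoin _ _ hy
  have hent : ∀ g i j, (r g).1 i j ∈ IntermediateField.adjoin (ZMod 2) (S : Set L) :=
    fun g i j => hO _ (mem_OO r g i j)
  refine ⟨S, ?_⟩
  rw [eq_top_iff]
  intro y _
  exact hfull (IntermediateField.adjoin (ZMod 2) (S : Set L)).toSubfield
    (h.K_mem r htr _ hent) (hent _ _ _) y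

/-- the same over a general field `Ω` -/
theorem VG.exists_L_aux (h : VG Γ K F T ρ) {g0 : Γ} (hg0 : g0 ≠ 1) {Ω : Type} [Field Ω]
    [Algebra K Ω] [Algebra (ZMod 2) Ω] (ψ : Ω) (r : Γ →* SpecialLinearGroup (Fin 2) Ω)
    (htr : ∀ g, FrR.tr (r g) = algebraMap K Ω (T g)) (hψ0 : ψ ≠ 0)
    (hψ : ψ + ψ⁻¹ = algebraMap K Ω (T g0))
    (g00 : (r g0).1 0 0 = ψ) (g11 : (r g0).1 1 1 = ψ⁻¹) (g01 : (r g0).1 0 1 = 0)
    (g10 : (r g0).1 1 0 = 0) (u : Γ) (hu1 : (r u).1 0 1 = 1) (hu2 : (r u).1 1 0 ≠ 0) :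
    ∃ (L : Type) (_ : Field L) (_ : Algebra (ZMod 2) L) (_ : Algebra K L)
      (r : Γ →* SpecialLinearGroup (Fin 2) L) (S : Finset L),
      Algebra.IsAlgebraic K L ∧
      IntermediateField.adjoin (ZMod 2) (S : Set L) = ⊤ ∧
      (∀ g, FrR.tr (r g) = algebraMap K L (T g)) ∧
      (r g0).1 0 1 = 0 ∧ (r g0).1 1 0 = 0 := by
  have hmem := ent_mem r htr (IntermediateField.adjoin K {ψ})
    (IntermediateField.mem_adjoin_simple_self K ψ) (h.T_ne hg0) hψ g00 g11 g01 g10 u hu1 hu2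
  obtain ⟨r', hr'⟩ := restr _ r hmem
  let halg : Algebra (ZMod 2) (IntermediateField.adjoin K {ψ}) :=
    ((algebraMap K (IntermediateField.adjoin K {ψ})).comp (algebraMap (ZMod 2) K)).toAlgebra
  have htr' : ∀ g, FrR.tr (r' g) = algebraMap K (IntermediateField.adjoin K {ψ}) (T g) := by
    intro g
    apply Subtype.ext
    have e1 := htr g
    unfold FrR.tr at e1 ⊢
    rw [← hr', ← hr'] at e1
    exact e1
  have e1 : (⟨ψ, IntermediateField.mem_adjoin_simple_self K ψ⟩ :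
      IntermediateField.adjoin K {ψ}) = (r' g0).1 0 0 := by
    apply Subtype.ext
    rw [hr', g00]
  obtain ⟨S, hS⟩ := @VG.gen_aux Γ K F _ _ _ _ _ _ T ρ h (IntermediateField.adjoin K {ψ}) _ halg _ r'
    htr' g0 (fun N h1 h2 => gen_top ψ N h1 (by rw [e1]; exact h2))
  refine ⟨IntermediateField.adjoin K {ψ}, inferInstance, halg, inferInstance, r', S,
    psi_alg hψ0 hψ, hS, htr', ?_, ?_⟩
  · apply Subtype.ext
    rw [hr', g01]
    rfl
  · apply Subtype.ext
    rw [hr', g10]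
    rfl

/-- (2) A representation over a finite extension `L` of `K` in an eigenbasis of `g0`. -/
theorem VG.exists_L (h : VG Γ K F T ρ) {g0 : Γ} (hg0 : g0 ≠ 1) :
    ∃ (L : Type) (_ : Field L) (_ : Algebra (ZMod 2) L) (_ : Algebra K L)
      (r : Γ →* SpecialLinearGroup (Fin 2) L) (S : Finset L),
      Algebra.IsAlgebraic K L ∧
      IntermediateField.adjoin (ZMod 2) (S : Set L) = ⊤ ∧
      (∀ g, FrR.tr (r g) = algebraMap K L (T g)) ∧
      (r g0).1 0 1 = 0 ∧ (r g0).1 1 0 = 0 := by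
  obtain ⟨ψ, r, htr, hψ0, hψ, g00, g11, g01, g10, u, hu1, hu2⟩ := h.exists_basis hg0
  exact h.exists_L_aux hg0 ψ r htr hψ0 hψ g00 g11 g01 g10 u hu1 hu2

end Pool.Agent.FrV
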