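import Pool.Agent.Lib.MP_305fdd_al.Fr.V.Defs

/-!
# MP_305fdd_al, F_r, INPUT-R: an eigenbasis of an element
-/

set_option autoImplicit false
set_option linter.unusedSectionVars false

namespace Pool.Agent.FrV

open Pool.Agent.FrN Pool.Agent.F2Ch Matrix

variable {Γ K F : Type} [Group Γ] [Field K] [Field F] [Algebra (ZMod 2) K]
  [Algebra (ZMod 2) F] [Algebra K F] {T : Γ → K} {ρ : Γ →* SpecialLinearGroup (Fin 2) F}

/-- roots of `X² - t X + 1` in an algebraically closed field -/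
theorem exists_psi {Ω : Type} [Field Ω] [IsAlgClosed Ω] (t : Ω) :
    ∃ ψ : Ω, ψ ≠ 0 ∧ ψ + ψ⁻¹ = t := by
  have hdeg : (Polynomial.X ^ 2 - Polynomial.C t * Polynomial.X + Polynomial.C 1 :
      Polynomial Ω).natDegree = 2 := by compute_degree!
  obtain ⟨ψ, hψ⟩ := IsAlgClosed.exists_root
    (Polynomial.X ^ 2 - Polynomial.C t * Polynomial.X + Polynomial.C 1 : Polynomial Ω) (by
      intro h0
      rw [Polynomial.natDegree_eq_of_degree_eq_some h0] at hdeg
      exact absurd hdeg (by norm_num))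
  simp only [Polynomial.IsRoot.def, Polynomial.eval_add, Polynomial.eval_sub, Polynomial.eval_pow,
    Polynomial.eval_X, Polynomial.eval_mul, Polynomial.eval_C] at hψ
  have h0 : ψ ≠ 0 := by
    rintro rfl
    simp at hψ
  refine ⟨ψ, h0, ?_⟩
  field_simp
  linear_combination hψ

/-- eigenvectors -/
theorem exists_eig {Ω : Type} [Field Ω] (M : SpecialLinearGroup (Fin 2) Ω) {ψ : Ω} (h0 : ψ ≠ 0)
    (h : ψ + ψ⁻¹ = FrR.tr M) : ∃ v0 v1 : Ω, ¬ (v0 = 0 ∧ v1 = 0) ∧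
      M.1 0 0 * v0 + M.1 0 1 * v1 = ψ * v0 ∧ M.1 1 0 * v0 + M.1 1 1 * v1 = ψ * v1 := by
  have hd := FrR.det_one M
  have hdet : (M.1 - ψ • (1 : Matrix (Fin 2) (Fin 2) Ω)).det = 0 := by
    rw [Matrix.det_fin_two]
    simp
    have h1 : ψ * ψ - FrR.tr M * ψ + 1 = 0 := by
      rw [← h]
      field_simp
      ring
    unfold FrR.tr at h1
    linear_combination h1 + hd
  obtain ⟨v, hv, hv0⟩ := Matrix.exists_mulVec_eq_zero_iff.mpr hdet
  refine ⟨v 0, v 1, fun h1 => hv ?_, ?_, ?_⟩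
  · ext i
    fin_cases i
    · exact h1.1
    · exact h1.2
  · have := congrFun hv0 0
    simp [Matrix.mulVec, dotProduct, Fin.sum_univ_two] at this
    linear_combination this
  · have := congrFun hv0 1
    simp [Matrix.mulVec, dotProduct, Fin.sum_univ_two] at this
    linear_combination this

/-- diagonalisation -/
theorem exists_conj {Ω : Type} [Field Ω] (M : SpecialLinearGroup (Fin 2) Ω) {ψ : Ω} (h0 : ψ ≠ 0)
    (h : ψ + ψ⁻¹ = FrR.tr M) (hne : ψ ≠ ψ⁻¹) : ∃ P : SpecialLinearGroup (Fin 2) Ω,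
      (P⁻¹ * M * P).1 0 0 = ψ ∧ (P⁻¹ * M * P).1 1 1 = ψ⁻¹ ∧ (P⁻¹ * M * P).1 0 1 = 0 ∧
        (P⁻¹ * M * P).1 1 0 = 0 := by
  obtain ⟨v0, v1, hv, e1, e2⟩ := exists_eig M h0 h
  obtain ⟨w0, w1, hw, f1, f2⟩ := exists_eig M (inv_ne_zero h0) (by rw [inv_inv, add_comm]; exact h)
  have hdet : v0 * w1 - v1 * w0 ≠ 0 := by
    intro hd
    -- the vectors are proportional
    have key : ∃ c : Ω, w0 = c * v0 ∧ w1 = c * v1 := by
      by_cases hv0 : v0 = 0
      · have hv1 : v1 ≠ 0 := fun h1 => hv ⟨hv0, h1⟩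
        refine ⟨w1 / v1, ?_, by field_simp⟩
        have : v1 * w0 = 0 := by rw [hv0] at hd; linear_combination -hd
        rw [hv0, mul_zero]
        exact (mul_eq_zero.1 this).resolve_left hv1
      · refine ⟨w0 / v0, by field_simp, ?_⟩
        field_simp
        linear_combination hd
    obtain ⟨c, hc0, hc1⟩ := key
    have g1 : (ψ⁻¹ - ψ) * (c * v0) = 0 := by
      rw [hc0, hc1] at f1
      linear_combination -f1 + c * e1
    have g2 : (ψ⁻¹ - ψ) * (c * v1) = 0 := by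
      rw [hc0, hc1] at f2
      linear_combination -f2 + c * e2
    have hne' : ψ⁻¹ - ψ ≠ 0 := fun h1 => hne (sub_eq_zero.1 h1).symm
    apply hw
    rw [hc0, hc1]
    exact ⟨(mul_eq_zero.1 g1).resolve_left hne', (mul_eq_zero.1 g2).resolve_left hne'⟩
  set D := v0 * w1 - v1 * w0 with hD
  let P : SpecialLinearGroup (Fin 2) Ω := ⟨!![v0, w0 / D; v1, w1 / D], by
    rw [Matrix.det_fin_two_of]
    field_simp
    rw [hD]; ring⟩
  have p00 : P.1 0 0 = v0 := rfl
  have p01 : P.1 0 1 = w0 / D := rfl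
  have p10 : P.1 1 0 = v1 := rfl
  have p11 : P.1 1 1 = w1 / D := rfl
  refine ⟨P, ?_, ?_, ?_, ?_⟩ <;>
    simp only [FrR.mul_app, FrR.inv00, FrR.inv01, FrR.inv10, FrR.inv11, p00, p01, p10, p11]
  · have : (w1 / D * M.1 0 0 + -(w0 / D) * M.1 1 0) * v0 +
        (w1 / D * M.1 0 1 + -(w0 / D) * M.1 1 1) * v1 = ψ * (v0 * w1 - v1 * w0) / D := by
      field_simp
      linear_combination w1 * e1 - w0 * e2
    rw [this, ← hD, mul_div_assoc, div_self hdet, mul_one]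
  · have : (-v1 * M.1 0 0 + v0 * M.1 1 0) * (w0 / D) + (-v1 * M.1 0 1 + v0 * M.1 1 1) * (w1 / D) =
        ψ⁻¹ * (v0 * w1 - v1 * w0) / D := by
      have : ψ⁻¹ * (v0 * w1 - v1 * w0) / D = (ψ⁻¹ * (v0 * w1 - v1 * w0)) * D⁻¹ := by
        rw [div_eq_mul_inv]
      rw [this, div_eq_mul_inv, div_eq_mul_inv]
      linear_combination (-v1 * D⁻¹) * f1 + v0 * D⁻¹ * f2
    rw [this, ← hD, mul_div_assoc, div_self hdet, mul_one]
  · rw [div_eq_mul_inv, div_eq_mul_inv]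
    linear_combination (w1 * D⁻¹ * D⁻¹) * f1 - w0 * D⁻¹ * D⁻¹ * f2
  · linear_combination -v1 * e1 + v0 * e2

/-- conjugation of a representation -/
theorem conj_rep {Ω : Type} [Field Ω] (r : Γ →* SpecialLinearGroup (Fin 2) Ω)
    (P : SpecialLinearGroup (Fin 2) Ω) : ∃ r' : Γ →* SpecialLinearGroup (Fin 2) Ω,
      ∀ g, r' g = P⁻¹ * r g * P :=
  ⟨{ toFun := fun g => P⁻¹ * r g * P
     map_one' := by rw [map_one]; group
     map_mul' := fun g h => by rw [map_mul]; group }, fun _ => rfl⟩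

/-- An eigenbasis of `g0` in which some element has the entry `1` at `(0, 1)` and a nonzero entry
at `(1, 0)`. -/
theorem VG.exists_basis (h : VG Γ K F T ρ) {g0 : Γ} (hg0 : g0 ≠ 1) :
    ∃ (ψ : AlgebraicClosure F) (r : Γ →* SpecialLinearGroup (Fin 2) (AlgebraicClosure F)),
      (∀ g, FrR.tr (r g) = algebraMap K (AlgebraicClosure F) (T g)) ∧ ψ ≠ 0 ∧
      ψ + ψ⁻¹ = algebraMap K (AlgebraicClosure F) (T g0) ∧
      (r g0).1 0 0 = ψ ∧ (r g0).1 1 1 = ψ⁻¹ ∧ (r g0).1 0 1 = 0 ∧ (r g0).1 1 0 = 0 ∧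
      ∃ u, (r u).1 0 1 = 1 ∧ (r u).1 1 0 ≠ 0 := by
  let Ω := AlgebraicClosure F
  let r0 : Γ →* SpecialLinearGroup (Fin 2) Ω :=
    (SpecialLinearGroup.map (n := Fin 2) (algebraMap F Ω)).comp ρ
  have htr0 : ∀ g, FrR.tr (r0 g) = algebraMap K Ω (T g) := by
    intro g
    have e1 : FrR.tr (r0 g) = algebraMap F Ω (FrR.tr (ρ g)) := by
      unfold FrR.tr
      rw [map_add]
      rfl
    rw [e1, h.tr', ← IsScalarTower.algebraMap_apply]
  obtain ⟨ψ, hψ0, hψ⟩ := exists_psi (algebraMap K Ω (T g0))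
  have hne : ψ ≠ ψ⁻¹ := by
    intro h1
    apply h.T_ne hg0
    apply (algebraMap K Ω).injective
    rw [← hψ, map_zero, ← h1]
    exact add_self_zero ψ
  obtain ⟨P, p1, p2, p3, p4⟩ := exists_conj (r0 g0) hψ0 (by rw [hψ, htr0]) hne
  obtain ⟨r1, hr1⟩ := conj_rep r0 P
  have htr1 : ∀ g, FrR.tr (r1 g) = algebraMap K Ω (T g) := by
    intro g
    rw [hr1, FrR.tr_conj, htr0]
  -- an element which is not upper triangular, and one which is not lower triangular
  have hcomm : ∀ a b : Γ, FrR.tr (r1 (a * b * a⁻¹ * b⁻¹)) = 0 → a * b = b * a := by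
    intro a b hab
    rw [htr1, ← map_zero (algebraMap K Ω)] at hab
    have h1 := h.div _ ((algebraMap K Ω).injective hab)
    have h2 : a * b = (a * b * a⁻¹ * b⁻¹) * (b * a) := by group
    rw [h2, h1, one_mul]
  obtain ⟨a, b, hab⟩ := h.nc
  have two0 : (2 : Ω) = 0 := two_eq_zero Ω
  have hex : ∀ i j : Fin 2, i ≠ j → ∃ u, (r1 u).1 i j ≠ 0 := by
    intro i j hij
    by_contra hcon
    push Not at hcon
    apply hab
    apply hcomm
    rw [map_mul, map_mul, map_mul, map_inv, map_inv]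
    have h3 := FrR.tr_comm (r1 a) (r1 b)
    have ha := hcon a
    have hb := hcon b
    fin_cases i <;> fin_cases j
    · exact absurd rfl hij
    · simp only [Fin.mk_one, Fin.zero_eta, Fin.isValue] at ha hb
      rw [ha, hb, two0] at h3
      rw [sub_zero] at h3
      rw [h3]; ring
    · simp only [Fin.mk_one, Fin.zero_eta, Fin.isValue] at ha hb
      rw [ha, hb, two0] at h3
      rw [sub_zero] at h3
      rw [h3]; ring
    · exact absurd rfl hij
  have hu : ∃ u, (r1 u).1 0 1 ≠ 0 ∧ (r1 u).1 1 0 ≠ 0 := by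
    obtain ⟨u1, hu1⟩ := hex 0 1 (by decide)
    obtain ⟨u2, hu2⟩ := hex 1 0 (by decide)
    by_cases h1 : (r1 u1).1 1 0 = 0
    · by_cases h2 : (r1 u2).1 0 1 = 0
      · refine ⟨u1 * u2, ?_, ?_⟩
        · rw [map_mul, FrR.mul_app, h2, mul_zero, zero_add]
          have hd := FrR.det_one (r1 u2)
          rw [h2, zero_mul, sub_zero] at hd
          exact mul_ne_zero hu1 (right_ne_zero_of_mul (by rw [hd]; exact one_ne_zero))
        · rw [map_mul, FrR.mul_app, h1, zero_mul, zero_add]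
          have hd := FrR.det_one (r1 u1)
          rw [h1, mul_zero, sub_zero] at hd
          exact mul_ne_zero (right_ne_zero_of_mul (by rw [hd]; exact one_ne_zero)) hu2
      · exact ⟨u2, h2, hu2⟩
    · exact ⟨u1, hu1, h1⟩
  obtain ⟨u, hu1, hu2⟩ := hu
  obtain ⟨s, hs⟩ := IsAlgClosed.exists_pow_nat_eq ((r1 u).1 0 1) (n := 2) (by norm_num)
  have hs0 : s ≠ 0 := by
    rintro rfl
    apply hu1
    rw [← hs]
    norm_num
  let D : SpecialLinearGroup (Fin 2) Ω := ⟨!![s, 0; 0, s⁻¹], by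
    rw [Matrix.det_fin_two_of, mul_inv_cancel₀ hs0, mul_zero, sub_zero]⟩
  have d00 : D.1 0 0 = s := rfl
  have d01 : D.1 0 1 = 0 := rfl
  have d10 : D.1 1 0 = 0 := rfl
  have d11 : D.1 1 1 = s⁻¹ := rfl
  obtain ⟨r2, hr2⟩ := conj_rep r1 D
  have hss : s * s⁻¹ = 1 := mul_inv_cancel₀ hs0
  have c00 : ∀ g, (r2 g).1 0 0 = (r1 g).1 0 0 := by
    intro g
    rw [hr2]
    simp only [FrR.mul_app, FrR.inv00, FrR.inv01, FrR.inv10, FrR.inv11, d00, d01, d10, d11]
    linear_combination (r1 g).1 0 0 * hss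
  have c11 : ∀ g, (r2 g).1 1 1 = (r1 g).1 1 1 := by
    intro g
    rw [hr2]
    simp only [FrR.mul_app, FrR.inv00, FrR.inv01, FrR.inv10, FrR.inv11, d00, d01, d10, d11]
    linear_combination (r1 g).1 1 1 * hss
  have c01 : ∀ g, (r2 g).1 0 1 = (r1 g).1 0 1 * (s⁻¹ * s⁻¹) := by
    intro g
    rw [hr2]
    simp only [FrR.mul_app, FrR.inv00, FrR.inv01, FrR.inv10, FrR.inv11, d00, d01, d10, d11]
    ring
  have c10 : ∀ g, (r2 g).1 1 0 = (r1 g).1 1 0 * (s * s) := by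
    intro g
    rw [hr2]
    simp only [FrR.mul_app, FrR.inv00, FrR.inv01, FrR.inv10, FrR.inv11, d00, d01, d10, d11]
    ring
  refine ⟨ψ, r2, ?_, hψ0, hψ, ?_, ?_, ?_, ?_, u, ?_, ?_⟩
  · intro g
    rw [hr2, FrR.tr_conj, htr1]
  · rw [c00, hr1]; exact p1
  · rw [c11, hr1]; exact p2
  · rw [c01, hr1, p3, zero_mul]
  · rw [c10, hr1, p4, zero_mul]
  · rw [c01, ← hs]
    linear_combination (s * s⁻¹ + 1) * hss
  · rw [c10]
    exact mul_ne_zero hu2 (mul_ne_zero hs0 hs0)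

end Pool.Agent.FrV
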