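import Mathlib

/-!
# MP_305fdd_al, F_r, INPUT-R: finitely presented covers with the same representations

Every finitely generated group `G` is a quotient of a finitely presented group all of whose
representations in `SL(2, R)` factor through `G` (the Hilbert basis theorem).
-/

set_option autoImplicit false
set_option linter.unusedSectionVars false

namespace Pool.Agent.FrV

open Matrix

section

variable (σ : Type) [Finite σ]

/-- the polynomial ring of the entries -/
abbrev A0 : Type := MvPolynomial (σ × Fin 2 × Fin 2) (ZMod 2)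

/-- the determinant relations -/
noncomputable def I0 : Ideal (A0 σ) := Ideal.span (Set.range fun i : σ =>
  (MvPolynomial.X (i, 0, 0) * MvPolynomial.X (i, 1, 1) -
    MvPolynomial.X (i, 0, 1) * MvPolynomial.X (i, 1, 0) - 1 : A0 σ))

/-- the coordinate ring of `SL₂ ^ σ` -/
abbrev A1 : Type := A0 σ ⧸ I0 σ

variable {σ}

/-- the generic matrices -/
noncomputable def gx (i : σ) : SpecialLinearGroup (Fin 2) (A1 σ) :=
  ⟨Matrix.of fun a b => Ideal.Quotient.mk (I0 σ) (MvPolynomial.X (i, a, b)), by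
    rw [Matrix.det_fin_two]
    simp only [Matrix.of_apply]
    rw [← map_mul, ← map_mul, ← map_sub, ← map_one (Ideal.Quotient.mk (I0 σ)),
      Ideal.Quotient.mk_eq_mk_iff_sub_mem]
    exact Ideal.subset_span ⟨i, rfl⟩⟩

/-- the generic representation -/
noncomputable def gr : FreeGroup σ →* SpecialLinearGroup (Fin 2) (A1 σ) := FreeGroup.lift gx

/-- the specialisation -/
theorem exists_spec {R : Type} [CommRing R] [Algebra (ZMod 2) R]
    (r : FreeGroup σ →* SpecialLinearGroup (Fin 2) R) :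
    ∃ φ : A1 σ →+* R, (SpecialLinearGroup.map φ).comp gr = r := by
  let φ0 : A0 σ →ₐ[ZMod 2] R := MvPolynomial.aeval fun x => (r (FreeGroup.of x.1)).1 x.2.1 x.2.2
  have h0 : ∀ a ∈ I0 σ, φ0.toRingHom a = 0 := by
    intro a ha
    have : I0 σ ≤ RingHom.ker φ0.toRingHom := by
      rw [I0, Ideal.span_le]
      rintro _ ⟨i, rfl⟩
      show φ0 _ = 0
      have hd := (r (FreeGroup.of i)).2
      rw [Matrix.det_fin_two] at hd
      simp only [φ0, map_sub, map_mul, MvPolynomial.aeval_X, map_one]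
      rw [hd, sub_self]
    exact this ha
  refine ⟨Ideal.Quotient.lift (I0 σ) φ0.toRingHom h0, ?_⟩
  apply FreeGroup.ext_hom
  intro i
  apply Subtype.ext
  ext a b
  simp only [MonoidHom.coe_comp, Function.comp_apply, gr, FreeGroup.lift_apply_of]
  show Ideal.Quotient.lift (I0 σ) φ0.toRingHom h0 (Ideal.Quotient.mk (I0 σ)
    (MvPolynomial.X (i, a, b))) = _
  rw [Ideal.Quotient.lift_mk]
  show φ0 _ = _
  simp only [φ0, MvPolynomial.aeval_X]

/-- Finitely many elements of `N` are enough. -/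
theorem exists_W (N : Set (FreeGroup σ)) : ∃ W : Finset (FreeGroup σ), (∀ w ∈ W, w ∈ N) ∧
    ∀ (R : Type) [CommRing R] [Algebra (ZMod 2) R]
      (r : FreeGroup σ →* SpecialLinearGroup (Fin 2) R), (∀ w ∈ W, r w = 1) →
      ∀ w ∈ N, r w = 1 := by
  classical
  have hσ : Finite (σ × Fin 2 × Fin 2) := inferInstance
  have hno : IsNoetherianRing (A1 σ) := inferInstance
  let E : FreeGroup σ × Fin 2 × Fin 2 → A1 σ := fun x => (gr x.1).1 x.2.1 x.2.2 -
    (1 : Matrix (Fin 2) (Fin 2) (A1 σ)) x.2.1 x.2.2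
  let S : Set (A1 σ) := E '' {x | x.1 ∈ N}
  have hfg : (Submodule.span (A1 σ) S).FG := IsNoetherian.noetherian _
  rw [Submodule.fg_span_iff_fg_span_finset_subset] at hfg
  obtain ⟨S', hS', hspan⟩ := hfg
  have hch : ∀ s : S', ∃ x : FreeGroup σ × Fin 2 × Fin 2, x.1 ∈ N ∧ E x = s := fun s => hS' s.2
  choose f hf1 hf2 using hch
  refine ⟨Finset.univ.image fun s : S' => (f s).1, ?_, ?_⟩
  · intro w hw
    obtain ⟨s, -, rfl⟩ := Finset.mem_image.mp hw
    exact hf1 s
  · intro R _ _ r hr w hw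
    obtain ⟨φ, hφ⟩ := exists_spec r
    have hent : ∀ w a b, φ (E (w, a, b)) = (r w).1 a b - (1 : Matrix (Fin 2) (Fin 2) R) a b := by
      intro w a b
      simp only [E, map_sub]
      rw [← hφ]
      congr 1
      by_cases hab : a = b
      · rw [hab, Matrix.one_apply_eq, Matrix.one_apply_eq, map_one]
      · rw [Matrix.one_apply_ne hab, Matrix.one_apply_ne hab, map_zero]
    have hker : Submodule.span (A1 σ) S ≤ RingHom.ker φ := by
      rw [hspan, Submodule.span_le]
      intro s hs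
      show φ s = 0
      have h1 := hf2 ⟨s, hs⟩
      have h2 : r (f ⟨s, hs⟩).1 = 1 := hr _ (Finset.mem_image.mpr ⟨⟨s, hs⟩, Finset.mem_univ _, rfl⟩)
      have h3 := hent (f ⟨s, hs⟩).1 (f ⟨s, hs⟩).2.1 (f ⟨s, hs⟩).2.2
      have h4 : E (f ⟨s, hs⟩) = s := h1
      rw [← h4]
      show φ (E ((f ⟨s, hs⟩).1, (f ⟨s, hs⟩).2.1, (f ⟨s, hs⟩).2.2)) = 0
      rw [h3, h2]
      exact sub_self _
    apply Subtype.ext
    ext a b
    have h5 : E (w, a, b) ∈ Submodule.span (A1 σ) S := Submodule.subset_span ⟨(w, a, b), hw, rfl⟩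
    have h6 : φ (E (w, a, b)) = 0 := hker h5
    rw [hent, sub_eq_zero] at h6
    exact h6

end

/-- (4) the finitely presented cover, in terms of relators; the relators `W₀` can be added. -/
theorem exists_fp (G : Type) [Group G] [Group.FG G] : ∃ (n : ℕ) (π : FreeGroup (Fin n) →* G)
    (W : Finset (FreeGroup (Fin n))), Function.Surjective π ∧ (∀ w ∈ W, π w = 1) ∧
    ∀ (R : Type) [CommRing R] [Algebra (ZMod 2) R]
      (r : FreeGroup (Fin n) →* SpecialLinearGroup (Fin 2) R), (∀ w ∈ W, r w = 1) →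
      ∀ w, π w = 1 → r w = 1 := by
  classical
  obtain ⟨S, hS⟩ := Group.fg_def.1 (inferInstance : Group.FG G)
  let e := S.equivFin
  let π : FreeGroup (Fin S.card) →* G := FreeGroup.lift fun i => ((e.symm i : S) : G)
  have hπ : Function.Surjective π := by
    rw [← MonoidHom.range_eq_top, eq_top_iff, ← hS, Subgroup.closure_le]
    intro s hs
    refine ⟨FreeGroup.of (e ⟨s, hs⟩), ?_⟩
    simp only [π, FreeGroup.lift_apply_of, Equiv.symm_apply_apply]
  obtain ⟨W, hW1, hW2⟩ := exists_W (π.ker : Set (FreeGroup (Fin S.card)))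
  exact ⟨S.card, π, W, hπ, hW1, fun R _ _ r hr w hw => hW2 R r hr w hw⟩

end Pool.Agent.FrV
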