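import Pool.Agent.Lib.MP_305fdd_al.Fr.V.Desc
import Pool.Agent.Lib.MP_305fdd_al.Fr.V.Cover
import Pool.Agent.Lib.MP_305fdd_al.Fr.P.Ext
import Pool.Agent.Lib.MP_305fdd_al.Fr.R.StmR

/-!
# MP_305fdd_al, F_r, INPUT-R: the input of Theorem R
-/

set_option autoImplicit false
set_option linter.unusedSectionVars false

namespace Pool.Agent.FrV

open Pool.Agent.FrN Pool.Agent.F2Ch Pool.Agent.FrR Matrix

variable {Γ K F : Type} [Group Γ] [Field K] [Field F] [Algebra (ZMod 2) K]
  [Algebra (ZMod 2) F] [Algebra K F] {T : Γ → K} {ρ : Γ →* SpecialLinearGroup (Fin 2) F}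

/-- (1), (2), (3) -/
theorem VG.input (h : VG Γ K F T ρ) {x : K → ℝ} (hx : SGV T x) :
    ∃ (L : Type) (_ : Field L) (_ : Algebra (ZMod 2) L) (_ : Algebra K L)
      (r : Γ →* SpecialLinearGroup (Fin 2) L) (S : Finset L) (V : RV L),
      IntermediateField.adjoin (ZMod 2) (S : Set L) = ⊤ ∧
      (∀ g, FrR.tr (r g) = algebraMap K L (T g)) ∧
      (∀ a, V.v (algebraMap K L a) = x a) ∧ Function.Injective r ∧
      ∀ H : Subgroup (SpecialLinearGroup (Fin 2) L), H ≤ r.range → SG V H := by
  obtain ⟨g0, hg0⟩ := h.exists_neg hx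
  have hg1 : g0 ≠ 1 := by
    rintro rfl
    rw [h.T_one, hx.isV.zero] at hg0
    exact lt_irrefl _ hg0
  obtain ⟨L, _, _, _, r, S, halg, hS, htr, -, -⟩ := h.exists_L hg1
  obtain ⟨x', hx', hext⟩ := FrP.exists_ext (F := K) (E := L) hx.isV
  have hinj : Function.Injective r := by
    rw [injective_iff_map_eq_one]
    intro g hg
    apply h.div
    apply (algebraMap K L).injective
    rw [← htr, hg, map_zero]
    show (1 : L) + 1 = 0
    exact add_self_zero 1
  have key : ∀ g ∈ r.range, g ≠ 1 → FrR.tr g ≠ 0 ∧ x' (FrR.tr g) ≤ 0 := by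
    rintro _ ⟨γ, rfl⟩ hg
    have hγ : γ ≠ 1 := by
      rintro rfl
      exact hg (map_one r)
    rw [htr, hext]
    refine ⟨?_, hx.le _ (T_mem T γ) (h.T_ne hγ)⟩
    rw [Ne, map_eq_zero]
    exact h.T_ne hγ
  have h2 : (2 : L) = 0 := two_eq_zero L
  refine ⟨L, inferInstance, inferInstance, inferInstance, r, S, ⟨x', hx'⟩, hS, htr, hext, hinj,
    fun H hH => ⟨?_, ?_, ?_⟩⟩
  · intro g hg hg1
    rw [h2, sub_zero]
    exact key g (hH hg) hg1
  · intro g hg hg1
    rw [h2, add_zero]
    exact key g (hH hg) hg1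
  · intro g hg hg1
    exact key g (hH hg) hg1

/-- change of the ground field -/
theorem adjoin_top {k L : Type} [Field k] [Field L] [Algebra k L] [Algebra (ZMod 2) L] {S : Set L}
    (hS : IntermediateField.adjoin (ZMod 2) S = ⊤) : IntermediateField.adjoin k S = ⊤ := by
  rw [eq_top_iff]
  intro y _
  have hy : y ∈ IntermediateField.adjoin (ZMod 2) S := by rw [hS]; exact IntermediateField.mem_top
  induction hy using IntermediateField.adjoin_induction with
  | mem x hx => exact IntermediateField.subset_adjoin _ _ hx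
  | algebraMap c =>
    fin_cases c
    · show algebraMap (ZMod 2) L 0 ∈ _
      rw [map_zero]
      exact zero_mem _
    · show algebraMap (ZMod 2) L 1 ∈ _
      rw [map_one]
      exact one_mem _
  | add x y hx hy h1 h2 => exact add_mem (h1 trivial) (h2 trivial)
  | inv x hx h1 => exact inv_mem (h1 trivial)
  | mul x y hx hy h1 h2 => exact mul_mem (h1 trivial) (h2 trivial)

end Pool.Agent.FrV
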