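import Pool.Agent.Lib.MP_305fdd_al.Fr.V.Claim
import Pool.Agent.Lib.MP_305fdd_al.Fr.V.Am
import Pool.Agent.Lib.MP_305fdd_al.Fr.V.Inp
import Pool.Agent.Lib.MP_305fdd_al.Fr.V.Stm

/-!
# MP_305fdd_al, F_r: Theorem R for vertex groups
-/

set_option autoImplicit false
set_option linter.unusedSectionVars false

namespace Pool.Agent.FrV

open Pool.Agent.FrN Pool.Agent.F2Ch Pool.Agent.FrS Pool.Agent.FrT Matrix

/-- the trace field of a vertex group -/
theorem exists_vg {Γ K F : Type} [Group Γ] [Field K] [Field F] [Algebra (ZMod 2) K]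
    [Algebra (ZMod 2) F] [Algebra K F] (T : Γ → K) (ρ : Γ →* SpecialLinearGroup (Fin 2) F)
    (P : Subgroup Γ) (x : K → ℝ) (htr : ∀ g ∈ P, (ρ g).1.trace = algebraMap K F (T g))
    (hdiv : ∀ g ∈ P, T g = 0 → g = 1) (hfg : P.FG) (hnab : ¬ Cm P) (hx : IsV x)
    (hle : ∀ b ∈ Algebra.adjoin (ZMod 2) (T '' P), b ≠ 0 → x b ≤ 0)
    (hne : ∃ b ∈ Algebra.adjoin (ZMod 2) (T '' P), x b ≠ 0) :
    ∃ (K1 : Type) (_ : Field K1) (_ : Algebra (ZMod 2) K1) (_ : Algebra K1 F) (T1 : P → K1)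
      (x1 : K1 → ℝ), VG P K1 F T1 (ρ.comp P.subtype) ∧ SGV T1 x1 ∧
      ∀ g : P, x1 (T1 g) = x (T g) := by
  let K1 : IntermediateField (ZMod 2) K := IntermediateField.adjoin (ZMod 2) (T '' (P : Set Γ))
  have hT : ∀ g : P, T g ∈ K1 := fun g => IntermediateField.subset_adjoin _ _ ⟨g, g.2, rfl⟩
  let T1 : P → K1 := fun g => ⟨T g, hT g⟩
  let x1 : K1 → ℝ := fun a => x a
  let alg : Algebra K1 F := ((algebraMap K F).comp (algebraMap K1 K)).toAlgebra
  have halg : ∀ a : K1, algebraMap K1 F a = algebraMap K F a := fun a => rfl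
  have hmap : (BB 2 T1).map K1.val = Algebra.adjoin (ZMod 2) (T '' P) := by
    unfold BB
    rw [AlgHom.map_adjoin]
    congr 1
    ext a
    constructor
    · rintro ⟨_, ⟨g, rfl⟩, rfl⟩
      exact ⟨g, g.2, rfl⟩
    · rintro ⟨g, hg, rfl⟩
      exact ⟨_, ⟨⟨g, hg⟩, rfl⟩, rfl⟩
  have hBB : ∀ b ∈ BB 2 T1, (b : K) ∈ Algebra.adjoin (ZMod 2) (T '' P) := by
    intro b hb
    rw [← hmap]
    exact ⟨b, hb, rfl⟩
  have hBB' : ∀ a ∈ Algebra.adjoin (ZMod 2) (T '' (P : Set Γ)), ∃ b ∈ BB 2 T1, (b : K) = a := by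
    intro a ha
    rw [← hmap] at ha
    obtain ⟨b, hb, hba⟩ := ha
    exact ⟨b, hb, hba⟩
  refine ⟨K1, inferInstance, inferInstance, alg, T1, x1, ⟨?_, ?_, ?_, ?_, ?_⟩, ⟨?_, ?_, ?_⟩,
    fun _ => rfl⟩
  · exact (Group.fg_iff_subgroup_fg _).2 hfg
  · intro g
    exact htr g g.2
  · rintro ⟨a, ha⟩
    obtain ⟨s, hs, t, ht, hst⟩ := IntermediateField.mem_adjoin_iff_div.mp ha
    obtain ⟨s', hs', rfl⟩ := hBB' s hs
    obtain ⟨t', ht', rfl⟩ := hBB' t ht
    by_cases h0 : t' = 0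
    · refine ⟨0, zero_mem _, 1, one_mem _, one_ne_zero, ?_⟩
      apply Subtype.ext
      show a * 1 = 0
      rw [hst, h0]
      simp
    · have h0' : (t' : K) ≠ 0 := fun h => h0 (Subtype.ext h)
      refine ⟨s', hs', t', ht', h0, ?_⟩
      apply Subtype.ext
      show a * t' = s'
      rw [hst, div_mul_cancel₀ _ h0']
  · intro g hg
    have h1 : T g = 0 := congrArg Subtype.val hg
    exact Subtype.ext (hdiv g g.2 h1)
  · by_contra hcon
    apply hnab
    intro a ha b hb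
    by_contra h
    exact hcon ⟨⟨a, ha⟩, ⟨b, hb⟩, fun h1 => h (congrArg Subtype.val h1)⟩
  · refine ⟨hx.zero, fun a b ha hb => hx.mul a b (fun h => ha (Subtype.ext h))
      (fun h => hb (Subtype.ext h)), fun a b ha hb hab => hx.add a b (fun h => ha (Subtype.ext h))
      (fun h => hb (Subtype.ext h)) (fun h => hab (Subtype.ext h))⟩
  · intro b hb hb0
    exact hle b (hBB b hb) (fun h => hb0 (Subtype.ext h))
  · obtain ⟨b, hb, hb0⟩ := hne
    obtain ⟨b', hb', rfl⟩ := hBB' b hb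
    exact ⟨b', hb0⟩

theorem fg_map {G Γ : Type} [Group G] [Group Γ] (j : G →* Γ) {H : Subgroup G} (h : H.FG) :
    (H.map j).FG := by
  classical
  obtain ⟨S, rfl⟩ := h
  exact ⟨S.image j, by rw [Finset.coe_image, MonoidHom.map_closure]⟩

section

variable {Γ K F ι : Type} [Group Γ] [Field K] [Field F] [Algebra (ZMod 2) K]
    [Algebra (ZMod 2) F] [Algebra K F] {ρ : Γ →* SpecialLinearGroup (Fin 2) F}
    {P : Subgroup Γ} {T : P → K}

/-- claim (c): an element of trace not algebraic over the traces of the incident groups -/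
theorem VG.claim (h : VG P K F T (ρ.comp P.subtype)) (I : ι → Subgroup Γ) (hIP : ∀ i, I i ≤ P)
    {L : Type} [Field L] [Algebra (ZMod 2) L] [Algebra K L] (r : P →* SpecialLinearGroup (Fin 2) L)
    (htr : ∀ g, FrR.tr (r g) = algebraMap K L (T g)) (x' : FrR.RV L)
    (hx' : ∀ c ∈ IntermediateField.adjoin (ZMod 2) (T '' {c | ∃ i, (c : Γ) ∈ I i}),
      x'.v (algebraMap K L c) = 0)
    (z b : P) (hz1 : z ≠ 1) (hzb : z * b = b * z) {p q : FrR.Tr x'} (hpq : p ≠ q)
    (z1 : r z • p = p) (z2 : r z • q = q) (hb : r b • p ≠ p) :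
    ¬ IsAlgebraic (Algebra.adjoin (ZMod 2) (trs ρ {c | ∃ i, c ∈ I i})) (FrS.tr ρ z) ∨
    ¬ IsAlgebraic (Algebra.adjoin (ZMod 2) (trs ρ {c | ∃ i, c ∈ I i})) (FrS.tr ρ b) := by
  by_contra hcon
  push Not at hcon
  obtain ⟨hz, hb'⟩ := hcon
  have htrs : trs ρ {c | ∃ i, c ∈ I i} = algebraMap K F '' (T '' {c | ∃ i, (c : Γ) ∈ I i}) := by
    ext a
    constructor
    · rintro ⟨c, ⟨i, hc⟩, rfl⟩
      exact ⟨_, ⟨⟨c, hIP i hc⟩, ⟨i, hc⟩, rfl⟩, (h.tr ⟨c, hIP i hc⟩).symm⟩
    · rintro ⟨_, ⟨c, ⟨i, hc⟩, rfl⟩, rfl⟩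
      exact ⟨c, ⟨i, hc⟩, h.tr c⟩
  have e1 : ∀ g : P, FrS.tr ρ g = algebraMap K F (T g) := fun g => h.tr g
  rw [htrs, e1] at hz hb'
  have hz' := alg_desc _ hz
  have hb'' := alg_desc _ hb'
  let x1 : K → ℝ := fun a => x'.v (algebraMap K L a)
  have hinj : ∀ a : K, a ≠ 0 → algebraMap K L a ≠ 0 := fun a ha => by
    rw [Ne, map_eq_zero]
    exact ha
  have hx1 : IsV x1 := by
    refine ⟨?_, fun a b ha hb => ?_, fun a b ha hb hab => ?_⟩
    · show x'.v (algebraMap K L 0) = 0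
      rw [map_zero, x'.isV.zero]
    · show x'.v (algebraMap K L (a * b)) = _
      rw [map_mul]
      exact x'.isV.mul _ _ (hinj a ha) (hinj b hb)
    · show _ ≤ x'.v (algebraMap K L (a + b))
      rw [map_add]
      refine x'.isV.add _ _ (hinj a ha) (hinj b hb) ?_
      rw [← map_add]
      exact hinj _ hab
  have h0 : ∀ a ∈ (Algebra.adjoin (ZMod 2) (T '' {c | ∃ i, (c : Γ) ∈ I i})).toSubring,
      x1 a = 0 := fun a ha => hx' a (IntermediateField.algebra_adjoin_le_adjoin _ _ ha)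
  have vz : x1 (T z) = 0 := val_alg hx1 _ h0 hz'
  have vb : x1 (T b) = 0 := val_alg hx1 _ h0 hb''
  apply hb
  refine fix_comm hpq z1 z2 ?_ ?_ (by rw [← map_mul, hzb, map_mul]) ?_
  · rw [htr]
    exact hinj _ (h.T_ne hz1)
  · rw [htr]
    exact vz
  · rw [htr]
    exact Or.inr vb.ge

/-- THEOREM R FOR VERTEX GROUPS -/
theorem VG.out [Finite ι] (hR : FrR.S_R) (hA : FrR.S_fgA) (hH : FrR.S_fgH)
    (h : VG P K F T (ρ.comp P.subtype)) {x : K → ℝ} (hx : SGV T x) (I : ι → Subgroup Γ)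
    (hIP : ∀ i, I i ≤ P) (hIfg : ∀ i, (I i).FG) (hIcm : ∀ i, Cm (I i))
    (hI : ∀ i, ∀ c : P, (c : Γ) ∈ I i → 0 ≤ x (T c)) : Out ρ P I := by
  obtain ⟨L, _, _, _, r, S, V, hS, htr, hV, hinj, hSG⟩ := h.input hx
  have hinst := h.fg
  let E : ι → Subgroup P := fun i => (I i).subgroupOf P
  have hEfg : ∀ i, (E i).FG := by
    intro i
    have h1 : Group.FG (I i) := (Group.fg_iff_subgroup_fg _).2 (hIfg i)
    have h2 : Group.FG ((I i).subgroupOf P) :=
      Group.fg_of_surjective (f := (Subgroup.subgroupOfEquivOfLe (hIP i)).symm.toMonoidHom)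
        (Subgroup.subgroupOfEquivOfLe (hIP i)).symm.surjective
    exact (Group.fg_iff_subgroup_fg _).1 h2
  have hEcm : ∀ i, ∀ a ∈ E i, ∀ b ∈ E i, a * b = b * a := by
    intro i a ha b hb
    exact Subtype.ext (hIcm i a ha b hb)
  obtain ⟨G, _, n, π₀, R₀, q, E', hπ₀, hker, hq, hrep, hE'fg, hE'cm, hE'map⟩ :=
    exists_cover P ι E hEfg hEcm
  let D1 : Set K := T '' {c | ∃ i, (c : Γ) ∈ I i}
  have hD1 : ∀ c ∈ IntermediateField.adjoin (ZMod 2) D1, x c = 0 := by
    refine hx.triv ?_ ?_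
    · rintro _ ⟨c, -, rfl⟩
      exact T_mem T c
    · rintro _ ⟨c, ⟨i, hc⟩, rfl⟩
      exact Or.inr (hI i c hc)
  let k : Type := IntermediateField.adjoin (ZMod 2) D1
  let fk : Field k := inferInstanceAs (Field (IntermediateField.adjoin (ZMod 2) D1))
  let emb : k →+* L := (algebraMap K L).comp
    (algebraMap (IntermediateField.adjoin (ZMod 2) D1) K)
  let algk : Algebra k L := emb.toAlgebra
  have halgk : ∀ c : IntermediateField.adjoin (ZMod 2) D1, algebraMap k L c = algebraMap K L c :=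
    fun c => rfl
  have htop : IntermediateField.adjoin k (S : Set L) = ⊤ := adjoin_top hS
  have htriv : F2Ch.Triv k V.v := by
    intro c
    show V.v (algebraMap K L (c : IntermediateField.adjoin (ZMod 2) D1)) = 0
    rw [hV]
    exact hD1 _ (Subtype.property (c : IntermediateField.adjoin (ZMod 2) D1))
  have hle : (r.comp q).range ≤ r.range := by
    rintro _ ⟨g, rfl⟩
    exact ⟨q g, rfl⟩
  have hneg : ∃ g : G, FrR.tr ((r.comp q) g) ≠ 0 ∧ V.v (FrR.tr ((r.comp q) g)) < 0 := by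
    obtain ⟨g, hg⟩ := h.exists_neg hx
    obtain ⟨g', rfl⟩ := hq g
    refine ⟨g', ?_, ?_⟩
    · show FrR.tr (r (q g')) ≠ 0
      rw [htr, Ne, map_eq_zero]
      intro h0
      rw [h0, hx.isV.zero] at hg
      exact lt_irrefl _ hg
    · show V.v (FrR.tr (r (q g'))) < 0
      rw [htr, hV]
      exact hg
  have hge : ∀ i, ∀ a ∈ E' i, V.Ge 0 (FrR.tr ((r.comp q) a)) := by
    intro i a ha
    right
    show 0 ≤ V.v (FrR.tr (r (q a)))
    rw [htr, hV]
    have h1 : q a ∈ E i := by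
      rw [← hE'map i]
      exact ⟨a, ha, rfl⟩
    exact hI i (q a) h1
  obtain ⟨N, hN, W, hNW, hNker, Vt, act, X, hact, u, v, hX, huv, hinv, hSC, hSCcm, hu, hv, hell,
    x', f, htriv', hequi, hfne, hmv⟩ := hR k L G ι (Fin n) π₀ R₀ hπ₀ hker S htop V htriv (r.comp q)
      (hSG _ hle) hneg E' hE'fg hE'cm hge
  have hNq : N ≤ q.ker := by
    intro g hg
    have h1 : r (q g) = 1 := hNker hg
    rw [← map_one r] at h1
    exact hinj h1
  let qb : G ⧸ N →* P := QuotientGroup.lift N q hNq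
  have hqb : ∀ g : G, qb (QuotientGroup.mk g) = q g := fun g => rfl
  let j : G ⧸ N →* Γ := P.subtype.comp qb
  have hjapp : ∀ g : G, j (QuotientGroup.mk g) = (q g : Γ) := fun g => rfl
  have hjr : j.range = P := by
    ext γ
    constructor
    · rintro ⟨g, rfl⟩
      exact (qb g).2
    · intro hγ
      obtain ⟨g, hg⟩ := hq ⟨γ, hγ⟩
      exact ⟨QuotientGroup.mk g, by rw [hjapp, hg]⟩
  have hj : Fac j := by
    intro R _ _ s y hy
    obtain ⟨g, rfl⟩ := QuotientGroup.mk_surjective y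
    have h1 : q g = 1 := by
      rw [MonoidHom.mem_ker, hjapp] at hy
      exact Subtype.ext hy
    have h2 : g ∈ (s.comp (QuotientGroup.mk' N)).ker := hrep R _ h1
    exact h2
  have hGfg : Group.FG G := Group.fg_of_surjective (f := π₀) hπ₀
  have hGN : Group.FG (G ⧸ N) := inferInstance
  -- commutativity of the edge group
  have hDcm : Cm ((SC (G ⧸ N) u v).map j) := by
    rintro _ ⟨a, ha, rfl⟩ _ ⟨b, hb, rfl⟩
    obtain ⟨a, rfl⟩ := QuotientGroup.mk_surjective a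
    obtain ⟨b, rfl⟩ := QuotientGroup.mk_surjective b
    have h1 : r (q a) * r (q b) = r (q b) * r (q a) := hSCcm a b ha hb
    rw [← map_mul r, ← map_mul r] at h1
    have h2 := hinj h1
    rw [hjapp, hjapp]
    exact congrArg Subtype.val h2
  have hDfg : ((SC (G ⧸ N) u v).map j).FG := fg_map j hSC
  -- elements of the edge group fix the images of the ends
  have hfix : ∀ g : G, (QuotientGroup.mk g : G ⧸ N) ∈ SC (G ⧸ N) u v →
      r (q g) • f u = f u ∧ r (q g) • f v = f v := by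
    intro g hg
    have h1 := hequi g u
    have h2 := hequi g v
    rw [MulAction.mem_stabilizer_iff.1 hg.1] at h1
    rw [MulAction.mem_stabilizer_iff.1 hg.2] at h2
    exact ⟨h1.symm, h2.symm⟩
  rcases amalg_or_hnn hact (u := u) (v := v) with hno | ⟨t, ht⟩
  · left
    obtain ⟨fgA, fgB⟩ := fg_am hact hA hX hinv huv hno hSC
    obtain ⟨⟨bu, hbu, hbu'⟩, bv, hbv, hbv'⟩ := hmv hno
    have hAm := isAm hact j hj hX hinv huv hno
    rw [hjr] at hAm
    have hx'0 : ∀ c ∈ IntermediateField.adjoin (ZMod 2) D1, x'.v (algebraMap K L c) = 0 :=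
      fun c hc => htriv' (⟨c, hc⟩ : IntermediateField.adjoin (ZMod 2) D1)
    refine ⟨(Sst (u := u) (v := v) hact u).map j, (Sst (u := u) (v := v) hact v).map j,
      (SC (G ⧸ N) u v).map j, hAm, fg_map j fgA, fg_map j fgB, hDfg, hDcm, ?_, ?_, ?_, ?_, ?_⟩
    · intro hEq
      have h1 : j bu ∈ (SC (G ⧸ N) u v).map j := by
        rw [← hEq]
        exact ⟨bu, hbu, rfl⟩
      obtain ⟨c, hc, hcb⟩ := h1
      obtain ⟨c, rfl⟩ := QuotientGroup.mk_surjective c
      obtain ⟨bu, rfl⟩ := QuotientGroup.mk_surjective bu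
      rw [hjapp, hjapp] at hcb
      apply hbu'
      rw [hequi]
      show r (q bu) • f v = f v
      rw [← Subtype.ext hcb]
      exact (hfix c hc).2
    · intro hEq
      have h1 : j bv ∈ (SC (G ⧸ N) u v).map j := by
        rw [← hEq]
        exact ⟨bv, hbv, rfl⟩
      obtain ⟨c, hc, hcb⟩ := h1
      obtain ⟨c, rfl⟩ := QuotientGroup.mk_surjective c
      obtain ⟨bv, rfl⟩ := QuotientGroup.mk_surjective bv
      rw [hjapp, hjapp] at hcb
      apply hbv'
      rw [hequi]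
      show r (q bv) • f u = f u
      rw [← Subtype.ext hcb]
      exact (hfix c hc).1
    · intro i
      obtain ⟨p, hp⟩ := hell i
      obtain ⟨g, hg⟩ := stab_conj hact (u := u) (v := v) hX p
      refine ⟨j g, by rw [← hjr]; exact ⟨g, rfl⟩, ?_⟩
      have hlift : ∀ c ∈ I i, ∃ a : G ⧸ N, j a = c ∧ a • p = p := by
        intro c hc
        have h1 : (⟨c, hIP i hc⟩ : P) ∈ E i := hc
        rw [← hE'map i] at h1
        obtain ⟨a, ha, hac⟩ := h1
        exact ⟨QuotientGroup.mk a, by rw [hjapp, hac], hp a ha⟩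
      rcases hg with hg | hg
      · left
        intro c hc
        obtain ⟨a, rfl, ha⟩ := hlift c hc
        rw [← map_inv, ← map_mul, ← map_mul]
        exact ⟨_, hg a ha, rfl⟩
      · right
        intro c hc
        obtain ⟨a, rfl, ha⟩ := hlift c hc
        rw [← map_inv, ← map_mul, ← map_mul]
        exact ⟨_, hg a ha, rfl⟩
    · intro hD hcm
      obtain ⟨_, ⟨z, hz, rfl⟩, hz1⟩ := (Subgroup.bot_or_exists_ne_one _).resolve_left hD
      obtain ⟨z, rfl⟩ := QuotientGroup.mk_surjective z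
      obtain ⟨bu, rfl⟩ := QuotientGroup.mk_surjective bu
      rw [hjapp] at hz1
      have hzA : j (QuotientGroup.mk z) ∈ (Sst (u := u) (v := v) hact u).map j :=
        ⟨_, SC_le_u hact hz, rfl⟩
      have hbA : j (QuotientGroup.mk bu) ∈ (Sst (u := u) (v := v) hact u).map j :=
        ⟨_, hbu, rfl⟩
      have hc := hcm _ hzA _ hbA
      rw [hjapp, hjapp] at hc
      have hmove : r (q bu) • f v ≠ f v := fun h1 => hbu' ((hequi bu v).trans h1)
      rcases h.claim I hIP r htr x' hx'0 (q z) (q bu) (fun h1 => hz1 (congrArg Subtype.val h1))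
        (Subtype.ext hc) hfne.symm (hfix z hz).2 (hfix z hz).1 hmove with h1 | h1
      · exact ⟨_, hzA, h1⟩
      · exact ⟨_, hbA, h1⟩
    · intro hD hcm
      obtain ⟨_, ⟨z, hz, rfl⟩, hz1⟩ := (Subgroup.bot_or_exists_ne_one _).resolve_left hD
      obtain ⟨z, rfl⟩ := QuotientGroup.mk_surjective z
      obtain ⟨bv, rfl⟩ := QuotientGroup.mk_surjective bv
      rw [hjapp] at hz1
      have hzA : j (QuotientGroup.mk z) ∈ (Sst (u := u) (v := v) hact v).map j :=
        ⟨_, SC_le_v hact hz, rfl⟩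
      have hbA : j (QuotientGroup.mk bv) ∈ (Sst (u := u) (v := v) hact v).map j :=
        ⟨_, hbv, rfl⟩
      have hc := hcm _ hzA _ hbA
      rw [hjapp, hjapp] at hc
      have hmove : r (q bv) • f u ≠ f u := fun h1 => hbv' ((hequi bv u).trans h1)
      rcases h.claim I hIP r htr x' hx'0 (q z) (q bv) (fun h1 => hz1 (congrArg Subtype.val h1))
        (Subtype.ext hc) hfne (hfix z hz).1 (hfix z hz).2 hmove with h1 | h1
      · exact ⟨_, hzA, h1⟩
      · exact ⟨_, hbA, h1⟩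
  · right
    have fgA := fg_hn hact hH hX hinv huv t ht hSC
    have hHn := isHn hact j hj hX hinv huv t ht
    rw [hjr] at hHn
    refine ⟨(Sst (u := u) (v := v) hact u).map j, (SC (G ⧸ N) u v).map j, j t, hHn, fg_map j fgA,
      hDfg, hDcm, ?_⟩
    intro i
    obtain ⟨p, hp⟩ := hell i
    obtain ⟨g, hg⟩ := stab_conj hact (u := u) (v := v) hX p
    have hlift : ∀ c ∈ I i, ∃ a : G ⧸ N, j a = c ∧ a • p = p := by
      intro c hc
      have h1 : (⟨c, hIP i hc⟩ : P) ∈ E i := hc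
      rw [← hE'map i] at h1
      obtain ⟨a, ha, hac⟩ := h1
      exact ⟨QuotientGroup.mk a, by rw [hjapp, hac], hp a ha⟩
    rcases hg with hg | hg
    · refine ⟨j g, by rw [← hjr]; exact ⟨g, rfl⟩, ?_⟩
      intro c hc
      obtain ⟨a, rfl, ha⟩ := hlift c hc
      rw [← map_inv, ← map_mul, ← map_mul]
      exact ⟨_, hg a ha, rfl⟩
    · refine ⟨j (g * t), by rw [← hjr]; exact ⟨g * t, rfl⟩, ?_⟩
      intro c hc
      obtain ⟨a, rfl, ha⟩ := hlift c hc
      rw [← map_inv, ← map_mul, ← map_mul]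
      refine ⟨_, ?_, rfl⟩
      have h1 := conj_Sst hact ht (hg a ha)
      have h2 : (g * t)⁻¹ * a * (g * t) = t⁻¹ * (g⁻¹ * a * g) * t := by group
      rw [h2]
      exact h1

end

/-- THEOREM R FOR VERTEX GROUPS, from Theorem R. -/
theorem s_v (hR : FrR.S_R) (hA : FrR.S_fgA) (hH : FrR.S_fgH) : S_V := by
  intro Γ K F ι _ _ _ _ _ _ _ T ρ P I x htr hdiv hfg hnab hIP hIfg hIcm hx hle hne hI
  obtain ⟨K1, _, _, _, T1, x1, hVG, hSG, hx1⟩ := exists_vg T ρ P x htr hdiv hfg hnab hx hle hne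
  exact hVG.out hR hA hH hSG I hIP hIfg hIcm (fun i c hc => by rw [hx1]; exact hI i c hc)

end Pool.Agent.FrV
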